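import Mathlib
import Pool.Agent.H402R2.SubMean
import Pool.Agent.Helper540.Holo

/-!
Sub-mean value inequality for `|g|^p` on balls of `ℂ^n`, `g` entire.
-/

set_option autoImplicit false

open MeasureTheory Metric Set Filter Topology
open scoped ENNReal Real

namespace Pool.Agent.T2H71.Fock

/-- `ℂ^n` with its Euclidean norm -/
abbrev Cn (n : ℕ) := EuclideanSpace ℂ (Fin n)

variable {n : ℕ}

/-- multiplication by a unimodular number as a real linear isometry -/
noncomputable def rot (c : ℂ) (hc : ‖c‖ = 1) : Cn n ≃ₗᵢ[ℝ] Cn n where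
  toLinearEquiv := (LinearEquiv.smulOfNeZero ℂ (Cn n) c (by
    intro h; rw [h, norm_zero] at hc; exact zero_ne_one hc)).restrictScalars ℝ
  norm_map' := by
    intro v
    show ‖c • v‖ = ‖v‖
    rw [norm_smul, hc, one_mul]

lemma rot_apply (c : ℂ) (hc : ‖c‖ = 1) (v : Cn n) : rot c hc v = c • v := rfl

lemma lintegral_ball_rot (c : ℂ) (hc : ‖c‖ = 1) (ρ : ℝ) (f : Cn n → ℝ≥0∞) (hf : Measurable f) :
    ∫⁻ v in ball (0 : Cn n) ρ, f (c • v) = ∫⁻ v in ball (0 : Cn n) ρ, f v := by
  have h := (LinearIsometryEquiv.measurePreserving (rot (n := n) c hc))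
  have h2 := h.setLIntegral_comp_preimage (s := ball (0 : Cn n) ρ) measurableSet_ball hf
  have h3 : (rot (n := n) c hc) ⁻¹' ball (0 : Cn n) ρ = ball (0 : Cn n) ρ := by
    ext v
    simp
  rw [h3] at h2
  exact h2

theorem sub_mean {g : Cn n → ℂ} (hg : Differentiable ℂ g) (z : Cn n) {ρ p : ℝ} (hp : 0 < p) :
    ENNReal.ofReal (‖g z‖ ^ p) * volume (ball (0 : Cn n) ρ) ≤
      ∫⁻ v in ball (0 : Cn n) ρ, ENNReal.ofReal (‖g (z + v)‖ ^ p) := by
  have hgc : Continuous g := hg.continuous
  have h1 : ∀ v : Cn n, ENNReal.ofReal (2 * π) * ENNReal.ofReal (‖g z‖ ^ p) ≤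
      ∫⁻ θ in Ioc 0 (2 * π), ENNReal.ofReal (‖g (z + circleMap 0 1 θ • v)‖ ^ p) := by
    intro v
    have hd : Differentiable ℂ (fun l : ℂ => g (z + l • v)) :=
      hg.comp ((differentiable_const z).add (differentiable_id.smul_const v))
    have h := Pool.Agent.H402R2.SubMean.rpow_le_circleAverage (g := fun l : ℂ => g (z + l • v))
      (w := 0) (r := 1) (ρ := 2) one_pos hp (by norm_num) hd.differentiableOn
    simp only [zero_smul, add_zero] at h
    rw [Real.circleAverage_def, smul_eq_mul, ← div_eq_inv_mul, le_div_iff₀ (by positivity),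
      intervalIntegral.integral_of_le (by positivity)] at h
    have hc : Continuous (fun θ : ℝ => ‖g (z + circleMap 0 1 θ • v)‖ ^ p) := by
      have : Continuous (fun θ : ℝ => g (z + circleMap 0 1 θ • v)) :=
        hgc.comp (continuous_const.add ((continuous_circleMap 0 1).smul continuous_const))
      exact this.norm.rpow_const fun _ => Or.inr hp.le
    rw [← ofReal_integral_eq_lintegral_ofReal, ← ENNReal.ofReal_mul (by positivity)]
    · apply ENNReal.ofReal_le_ofReal
      rw [mul_comm]
      exact h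
    · exact (hc.continuousOn.integrableOn_compact isCompact_Icc).mono_set Ioc_subset_Icc_self
    · exact Eventually.of_forall fun θ => by positivity
  have h2 : ENNReal.ofReal (2 * π) * (ENNReal.ofReal (‖g z‖ ^ p) * volume (ball (0 : Cn n) ρ)) ≤
      ENNReal.ofReal (2 * π) *
        ∫⁻ v in ball (0 : Cn n) ρ, ENNReal.ofReal (‖g (z + v)‖ ^ p) := by
    calc ENNReal.ofReal (2 * π) * (ENNReal.ofReal (‖g z‖ ^ p) * volume (ball (0 : Cn n) ρ))
        = ∫⁻ v in ball (0 : Cn n) ρ, ENNReal.ofReal (2 * π) * ENNReal.ofReal (‖g z‖ ^ p) := by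
          rw [lintegral_const, Measure.restrict_apply MeasurableSet.univ, univ_inter, mul_assoc]
      _ ≤ ∫⁻ v in ball (0 : Cn n) ρ,
          ∫⁻ θ in Ioc 0 (2 * π), ENNReal.ofReal (‖g (z + circleMap 0 1 θ • v)‖ ^ p) :=
          lintegral_mono fun v => h1 v
      _ = ∫⁻ θ in Ioc 0 (2 * π), ∫⁻ v in ball (0 : Cn n) ρ,
          ENNReal.ofReal (‖g (z + circleMap 0 1 θ • v)‖ ^ p) := by
          apply lintegral_lintegral_swap
          have : Continuous (fun q : Cn n × ℝ => ‖g (z + circleMap 0 1 q.2 • q.1)‖ ^ p) := by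
            have : Continuous (fun q : Cn n × ℝ => g (z + circleMap 0 1 q.2 • q.1)) := by
              apply hgc.comp
              exact continuous_const.add (((continuous_circleMap 0 1).comp continuous_snd).smul
                continuous_fst)
            exact this.norm.rpow_const fun _ => Or.inr hp.le
          exact (ENNReal.continuous_ofReal.comp this).measurable.aemeasurable
      _ = ∫⁻ θ in Ioc 0 (2 * π), ∫⁻ v in ball (0 : Cn n) ρ,
          ENNReal.ofReal (‖g (z + v)‖ ^ p) := by
          apply lintegral_congr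
          intro θ
          have hc1 : ‖circleMap 0 1 θ‖ = 1 := by simp
          refine lintegral_ball_rot (circleMap 0 1 θ) hc1 ρ
            (fun v => ENNReal.ofReal (‖g (z + v)‖ ^ p)) ?_
          have : Continuous (fun v : Cn n => ‖g (z + v)‖ ^ p) :=
            (hgc.comp (continuous_const.add continuous_id)).norm.rpow_const fun _ => Or.inr hp.le
          exact (ENNReal.continuous_ofReal.comp this).measurable
      _ = _ := by
          rw [lintegral_const, Measure.restrict_apply MeasurableSet.univ, univ_inter,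
            Real.volume_Ioc, sub_zero, mul_comm]
  have h0 : ENNReal.ofReal (2 * π) ≠ 0 := by
    rw [Ne, ENNReal.ofReal_eq_zero, not_le]; positivity
  exact (ENNReal.mul_le_mul_iff_right h0 ENNReal.ofReal_ne_top).1 h2

end Pool.Agent.T2H71.Fock
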