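import Mathlib
import Pool.Agent.T2H71.Fock.Sub

/-!
Weights, local averages and their integral.
-/

set_option autoImplicit false

open MeasureTheory Metric Set Filter Topology
open scoped ENNReal Real

namespace Pool.Agent.T2H71.Fock

variable {n : ℕ}

/-- Gaussian weight divided by a power of `1 + |x|^2` -/
noncomputable def wt (a : ℝ) (k : ℕ) (x : Cn n) : ℝ :=
  Real.exp (-a * ‖x‖ ^ 2) / (1 + ‖x‖ ^ 2) ^ k

lemma wt_pos (a : ℝ) (k : ℕ) (x : Cn n) : 0 < wt a k x := by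
  unfold wt; positivity

lemma continuous_wt (a : ℝ) (k : ℕ) : Continuous (wt a k : Cn n → ℝ) := by
  unfold wt
  refine Continuous.div (by fun_prop) (by fun_prop) fun x => by positivity

lemma wt_compare {a : ℝ} (ha : 0 < a) (k : ℕ) {x x' : Cn n} (h : |‖x‖ ^ 2 - ‖x'‖ ^ 2| ≤ 6) :
    wt a k x' ≤ Real.exp (6 * a) * 7 ^ k * wt a k x := by
  unfold wt
  have h1 := (abs_le.1 h).2
  have h2 := (abs_le.1 h).1
  have e1 : Real.exp (-a * ‖x'‖ ^ 2) ≤ Real.exp (6 * a) * Real.exp (-a * ‖x‖ ^ 2) := by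
    rw [← Real.exp_add]
    apply Real.exp_le_exp.2
    nlinarith
  have e2 : (1 + ‖x‖ ^ 2) ^ k ≤ 7 ^ k * (1 + ‖x'‖ ^ 2) ^ k := by
    rw [← mul_pow]
    apply pow_le_pow_left₀ (by positivity)
    nlinarith [sq_nonneg ‖x'‖]
  rw [div_le_iff₀ (by positivity)]
  have e3 : Real.exp (6 * a) * 7 ^ k * (Real.exp (-a * ‖x‖ ^ 2) / (1 + ‖x‖ ^ 2) ^ k) *
      (1 + ‖x'‖ ^ 2) ^ k = (Real.exp (6 * a) * Real.exp (-a * ‖x‖ ^ 2)) *
        ((7 ^ k * (1 + ‖x'‖ ^ 2) ^ k) / (1 + ‖x‖ ^ 2) ^ k) := by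
    ring
  rw [e3]
  have e4 : 1 ≤ (7 ^ k * (1 + ‖x'‖ ^ 2) ^ k) / (1 + ‖x‖ ^ 2) ^ k := by
    rw [one_le_div (by positivity)]; exact e2
  calc Real.exp (-a * ‖x'‖ ^ 2) ≤ Real.exp (6 * a) * Real.exp (-a * ‖x‖ ^ 2) := e1
    _ = Real.exp (6 * a) * Real.exp (-a * ‖x‖ ^ 2) * 1 := (mul_one _).symm
    _ ≤ _ := mul_le_mul_of_nonneg_left e4 (by positivity)

lemma sq_diff_le {w x : Cn n} (hw : 1 ≤ ‖w‖) (hx : ‖x - w‖ ≤ 1 / ‖w‖) :
    |‖x‖ ^ 2 - ‖w‖ ^ 2| ≤ 3 := by
  have h0 : 0 < ‖w‖ := by linarith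
  have h1 : |‖x‖ - ‖w‖| ≤ 1 / ‖w‖ := (abs_norm_sub_norm_le x w).trans hx
  have h2 : 1 / ‖w‖ ≤ 1 := by rw [div_le_one h0]; exact hw
  have h3 : ‖w‖ * (1 / ‖w‖) = 1 := by field_simp
  have h4 : ‖x‖ ^ 2 - ‖w‖ ^ 2 = (‖x‖ - ‖w‖) * (‖x‖ + ‖w‖) := by ring
  rw [h4, abs_mul, abs_of_nonneg (by positivity : 0 ≤ ‖x‖ + ‖w‖)]
  have h5 : ‖x‖ + ‖w‖ ≤ 2 * ‖w‖ + 1 := by linarith [(abs_le.1 h1).2]
  calc |‖x‖ - ‖w‖| * (‖x‖ + ‖w‖) ≤ (1 / ‖w‖) * (2 * ‖w‖ + 1) :=
        mul_le_mul h1 h5 (by positivity) (by positivity)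
    _ = 2 * (‖w‖ * (1 / ‖w‖)) + 1 / ‖w‖ := by ring
    _ ≤ 3 := by rw [h3]; linarith

lemma wt_compare' {a : ℝ} (ha : 0 < a) (k : ℕ) {w x x' : Cn n} (hw : 1 ≤ ‖w‖)
    (hx : ‖x - w‖ ≤ 1 / ‖w‖) (hx' : ‖x' - w‖ ≤ 1 / ‖w‖) :
    wt a k x' ≤ Real.exp (6 * a) * 7 ^ k * wt a k x := by
  apply wt_compare ha
  have h1 := abs_le.1 (sq_diff_le hw hx)
  have h2 := abs_le.1 (sq_diff_le hw hx')
  rw [abs_le]
  constructor <;> linarith [h1.1, h1.2, h2.1, h2.2]

/-- the weighted modulus -/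
noncomputable def U (a : ℝ) (k : ℕ) (g : Cn n → ℂ) (x : Cn n) : ℝ := ‖g x‖ * wt a k x

lemma U_nonneg (a : ℝ) (k : ℕ) (g : Cn n → ℂ) (x : Cn n) : 0 ≤ U a k g x :=
  mul_nonneg (norm_nonneg _) (wt_pos a k x).le

lemma continuous_U (a : ℝ) (k : ℕ) {g : Cn n → ℂ} (hg : Continuous g) : Continuous (U a k g) :=
  hg.norm.mul (continuous_wt a k)

/-- its `p`-th power -/
noncomputable def Phi (a : ℝ) (k : ℕ) (p : ℝ) (g : Cn n → ℂ) (x : Cn n) : ℝ≥0∞ :=
  (ENNReal.ofReal (U a k g x)) ^ p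

lemma measurable_Phi (a : ℝ) (k : ℕ) (p : ℝ) {g : Cn n → ℂ} (hg : Continuous g) :
    Measurable (Phi a k p g) :=
  (ENNReal.continuous_ofReal.comp (continuous_U a k hg)).measurable.pow_const p

/-- volume of the unit ball -/
noncomputable def V1 (n : ℕ) : ℝ≥0∞ := volume (ball (0 : Cn n) 1)

lemma V1_ne_zero : V1 n ≠ 0 := (measure_ball_pos _ _ one_pos).ne'
lemma V1_ne_top : V1 n ≠ ∞ := measure_ball_lt_top.ne

/-- real dimension -/
noncomputable def Dm (n : ℕ) : ℕ := Module.finrank ℝ (Cn n)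

lemma vol_ball (x : Cn n) {r : ℝ} (hr : 0 < r) :
    volume (ball x r) = ENNReal.ofReal (r ^ Dm n) * V1 n :=
  Measure.addHaar_ball_of_pos volume x hr

/-- local averages -/
noncomputable def F (a : ℝ) (k : ℕ) (p : ℝ) (g : Cn n → ℂ) (w : Cn n) : ℝ≥0∞ :=
  ENNReal.ofReal (‖w‖ ^ Dm n) * ∫⁻ x in ball w (1 / ‖w‖), Phi a k p g x

/-- constant in the local estimate -/
noncomputable def C1 (n : ℕ) (a : ℝ) (k : ℕ) (p : ℝ) : ℝ≥0∞ :=
  ENNReal.ofReal ((Real.exp (6 * a) * 7 ^ k) ^ p) * ((V1 n)⁻¹ * ENNReal.ofReal (2 ^ Dm n))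

lemma C1_ne_top (n : ℕ) (a : ℝ) (k : ℕ) (p : ℝ) : C1 n a k p ≠ ∞ := by
  unfold C1
  exact ENNReal.mul_ne_top ENNReal.ofReal_ne_top
    (ENNReal.mul_ne_top (ENNReal.inv_ne_top.2 V1_ne_zero) ENNReal.ofReal_ne_top)

lemma Phi_eq (a : ℝ) (k : ℕ) {p : ℝ} (hp : 0 < p) (g : Cn n → ℂ) (x : Cn n) :
    Phi a k p g x = ENNReal.ofReal (wt a k x ^ p) * ENNReal.ofReal (‖g x‖ ^ p) := by
  unfold Phi U
  rw [ENNReal.ofReal_rpow_of_nonneg (mul_nonneg (norm_nonneg _) (wt_pos a k x).le) hp.le,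
    Real.mul_rpow (norm_nonneg _) (wt_pos a k x).le, mul_comm,
    ENNReal.ofReal_mul (by have := wt_pos a k x; positivity)]

theorem LA {g : Cn n → ℂ} (hg : Differentiable ℂ g) {a : ℝ} (ha : 0 < a) (k : ℕ) {p : ℝ}
    (hp : 0 < p) {w w' : Cn n} (hw : 1 ≤ ‖w‖) (h : ‖w' - w‖ ≤ 1 / (2 * ‖w‖)) :
    Phi a k p g w' ≤ C1 n a k p * F a k p g w := by
  have h0 : 0 < ‖w‖ := by linarith
  have hρ : 0 < 1 / (2 * ‖w‖) := by positivity
  have hρ2 : 1 / (2 * ‖w‖) + 1 / (2 * ‖w‖) = 1 / ‖w‖ := by field_simp; norm_num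
  have hw' : ‖w' - w‖ ≤ 1 / ‖w‖ := by linarith
  have hK : 0 < Real.exp (6 * a) * 7 ^ k := by positivity
  set K := Real.exp (6 * a) * 7 ^ k with hKdef
  set I := ∫⁻ x in ball w (1 / ‖w‖), Phi a k p g x with hI
  have key : Phi a k p g w' * volume (ball (0 : Cn n) (1 / (2 * ‖w‖))) ≤
      ENNReal.ofReal (K ^ p) * I := by
    calc Phi a k p g w' * volume (ball (0 : Cn n) (1 / (2 * ‖w‖)))
        = ENNReal.ofReal (wt a k w' ^ p) * (ENNReal.ofReal (‖g w'‖ ^ p) *
          volume (ball (0 : Cn n) (1 / (2 * ‖w‖)))) := by rw [Phi_eq a k hp, mul_assoc]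
      _ ≤ ENNReal.ofReal (wt a k w' ^ p) *
          ∫⁻ v in ball (0 : Cn n) (1 / (2 * ‖w‖)), ENNReal.ofReal (‖g (w' + v)‖ ^ p) := by
          gcongr
          exact sub_mean hg w' hp
      _ = ∫⁻ v in ball (0 : Cn n) (1 / (2 * ‖w‖)),
          ENNReal.ofReal (wt a k w' ^ p) * ENNReal.ofReal (‖g (w' + v)‖ ^ p) := by
          rw [lintegral_const_mul' _ _ ENNReal.ofReal_ne_top]
      _ ≤ ∫⁻ v in ball (0 : Cn n) (1 / (2 * ‖w‖)),
          ENNReal.ofReal (K ^ p) * Phi a k p g (w' + v) := by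
          apply setLIntegral_mono' measurableSet_ball
          intro v hv
          rw [mem_ball_zero_iff] at hv
          rw [Phi_eq a k hp, ← mul_assoc,
            ← ENNReal.ofReal_mul (p := K ^ p) (Real.rpow_nonneg hK.le p)]
          refine mul_le_mul_left ?_ _
          apply ENNReal.ofReal_le_ofReal
          rw [← Real.mul_rpow hK.le (wt_pos a k _).le]
          apply Real.rpow_le_rpow (wt_pos a k _).le _ hp.le
          apply wt_compare' ha k hw _ hw'
          calc ‖w' + v - w‖ = ‖(w' - w) + v‖ := by congr 1; abel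
            _ ≤ ‖w' - w‖ + ‖v‖ := norm_add_le _ _
            _ ≤ 1 / (2 * ‖w‖) + 1 / (2 * ‖w‖) := add_le_add h hv.le
            _ = _ := hρ2
      _ = ENNReal.ofReal (K ^ p) * ∫⁻ v in ball (0 : Cn n) (1 / (2 * ‖w‖)),
          Phi a k p g (w' + v) := by
          rw [lintegral_const_mul' _ _ ENNReal.ofReal_ne_top]
      _ = ENNReal.ofReal (K ^ p) * ∫⁻ x in ball w' (1 / (2 * ‖w‖)), Phi a k p g x := by
          congr 1
          have hmp : MeasurePreserving (fun v : Cn n => w' + v) volume volume :=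
            measurePreserving_add_left volume w'
          have := hmp.setLIntegral_comp_preimage (s := ball w' (1 / (2 * ‖w‖)))
            measurableSet_ball (measurable_Phi a k p hg.continuous)
          rw [← this]
          congr 1
          congr 1
          ext v
          simp [dist_eq_norm]
      _ ≤ ENNReal.ofReal (K ^ p) * I := by
          gcongr
          rw [hI]
          apply lintegral_mono_set
          intro x hx
          rw [mem_ball, dist_eq_norm] at hx ⊢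
          calc ‖x - w‖ = ‖(x - w') + (w' - w)‖ := by congr 1; abel
            _ ≤ ‖x - w'‖ + ‖w' - w‖ := norm_add_le _ _
            _ < 1 / (2 * ‖w‖) + 1 / (2 * ‖w‖) := add_lt_add_of_lt_of_le hx h
            _ = _ := hρ2
  rw [vol_ball _ hρ] at key
  have h1 : (ENNReal.ofReal ((1 / (2 * ‖w‖)) ^ Dm n) * V1 n) *
      ((V1 n)⁻¹ * ENNReal.ofReal (2 ^ Dm n) * ENNReal.ofReal (‖w‖ ^ Dm n)) = 1 := by
    have e1 : (ENNReal.ofReal ((1 / (2 * ‖w‖)) ^ Dm n) * V1 n) *
      ((V1 n)⁻¹ * ENNReal.ofReal (2 ^ Dm n) * ENNReal.ofReal (‖w‖ ^ Dm n)) =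
      (V1 n * (V1 n)⁻¹) * (ENNReal.ofReal ((1 / (2 * ‖w‖)) ^ Dm n) *
        (ENNReal.ofReal (2 ^ Dm n) * ENNReal.ofReal (‖w‖ ^ Dm n))) := by ring
    rw [e1, ENNReal.mul_inv_cancel V1_ne_zero V1_ne_top, one_mul,
      ← ENNReal.ofReal_mul (by positivity), ← ENNReal.ofReal_mul (by positivity), ← mul_pow,
      ← mul_pow]
    have : 1 / (2 * ‖w‖) * (2 * ‖w‖) = 1 := by field_simp
    rw [this, one_pow, ENNReal.ofReal_one]
  calc Phi a k p g w' = Phi a k p g w' * ((ENNReal.ofReal ((1 / (2 * ‖w‖)) ^ Dm n) * V1 n) *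
      ((V1 n)⁻¹ * ENNReal.ofReal (2 ^ Dm n) * ENNReal.ofReal (‖w‖ ^ Dm n))) := by
        rw [h1, mul_one]
    _ = (Phi a k p g w' * (ENNReal.ofReal ((1 / (2 * ‖w‖)) ^ Dm n) * V1 n)) *
      ((V1 n)⁻¹ * ENNReal.ofReal (2 ^ Dm n) * ENNReal.ofReal (‖w‖ ^ Dm n)) := by ring
    _ ≤ (ENNReal.ofReal (K ^ p) * I) *
      ((V1 n)⁻¹ * ENNReal.ofReal (2 ^ Dm n) * ENNReal.ofReal (‖w‖ ^ Dm n)) := by gcongr
    _ = C1 n a k p * F a k p g w := by
        unfold C1 F
        rw [← hKdef, ← hI]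
        ring

theorem INT {g : Cn n → ℂ} (hg : Continuous g) (a : ℝ) (k : ℕ) (p : ℝ) :
    ∫⁻ w in {w : Cn n | 1 ≤ ‖w‖}, F a k p g w ≤
      (ENNReal.ofReal (3 ^ Dm n) * V1 n) * ∫⁻ x, Phi a k p g x := by
  classical
  set T : Set (Cn n × Cn n) := {q | 1 ≤ ‖q.1‖ ∧ ‖q.2 - q.1‖ < 1 / ‖q.1‖} with hT
  have hTm : MeasurableSet T := by
    apply MeasurableSet.inter
    · exact measurableSet_le measurable_const measurable_fst.norm
    · exact measurableSet_lt (measurable_snd.sub measurable_fst).norm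
        (measurable_const.div measurable_fst.norm)
  set J : Cn n × Cn n → ℝ≥0∞ :=
    T.indicator (fun q => ENNReal.ofReal (‖q.1‖ ^ Dm n) * Phi a k p g q.2) with hJ
  have hJm : Measurable J := by
    apply Measurable.indicator _ hTm
    apply Measurable.mul
    · exact (measurable_fst.norm.pow_const _).ennreal_ofReal
    · exact (measurable_Phi a k p hg).comp measurable_snd
  have hS : MeasurableSet {w : Cn n | 1 ≤ ‖w‖} := measurableSet_le measurable_const measurable_norm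
  calc ∫⁻ w in {w : Cn n | 1 ≤ ‖w‖}, F a k p g w
      = ∫⁻ w, ∫⁻ x, J (w, x) := by
        rw [← lintegral_indicator hS]
        apply lintegral_congr
        intro w
        by_cases hw : 1 ≤ ‖w‖
        · rw [indicator_of_mem (show w ∈ {w : Cn n | 1 ≤ ‖w‖} from hw)]
          unfold F
          rw [← lintegral_const_mul' _ _ ENNReal.ofReal_ne_top,
            ← lintegral_indicator measurableSet_ball]
          apply lintegral_congr
          intro x
          by_cases hx : x ∈ ball w (1 / ‖w‖)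
          · have hx' : (w, x) ∈ T := by
              rw [mem_ball, dist_eq_norm] at hx
              exact ⟨hw, hx⟩
            rw [indicator_of_mem hx, hJ, indicator_of_mem hx']
          · have hx' : (w, x) ∉ T := by
              intro h
              apply hx
              rw [mem_ball, dist_eq_norm]
              exact h.2
            rw [indicator_of_notMem hx, hJ, indicator_of_notMem hx']
        · rw [indicator_of_notMem (show w ∉ {w : Cn n | 1 ≤ ‖w‖} from hw)]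
          have hz : ∀ x, J (w, x) = 0 := fun x => by
            have hx' : (w, x) ∉ T := fun h => hw h.1
            rw [hJ, indicator_of_notMem hx']
          simp only [hz, lintegral_zero]
    _ = ∫⁻ x, ∫⁻ w, J (w, x) := lintegral_lintegral_swap hJm.aemeasurable
    _ ≤ ∫⁻ x, (ENNReal.ofReal (3 ^ Dm n) * V1 n) * Phi a k p g x := by
        apply lintegral_mono
        intro x
        show ∫⁻ w, J (w, x) ≤ (ENNReal.ofReal (3 ^ Dm n) * V1 n) * Phi a k p g x
        have hx0 : 0 < ‖x‖ + 1 := by positivity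
        have hρ : 0 < 3 / (‖x‖ + 1) := by positivity
        calc ∫⁻ w, J (w, x) ≤ ∫⁻ w, (ball x (3 / (‖x‖ + 1))).indicator
              (fun _ => ENNReal.ofReal ((‖x‖ + 1) ^ Dm n) * Phi a k p g x) w := by
              apply lintegral_mono
              intro w
              show J (w, x) ≤ _
              by_cases hx' : (w, x) ∈ T
              · have h1 : 1 ≤ ‖w‖ := hx'.1
                have h2 : ‖x - w‖ < 1 / ‖w‖ := hx'.2
                have h0 : 0 < ‖w‖ := by linarith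
                have h3 : 1 / ‖w‖ ≤ 1 := by rw [div_le_one h0]; exact h1
                have h4 : ‖w‖ ≤ ‖x‖ + 1 := by
                  have := norm_sub_norm_le w x
                  rw [norm_sub_rev] at this
                  linarith
                have h5 : ‖x‖ ≤ ‖w‖ + 1 := by
                  have := norm_sub_norm_le x w
                  linarith
                have h6 : 1 / ‖w‖ ≤ 3 / (‖x‖ + 1) := by
                  rw [div_le_div_iff₀ h0 hx0]
                  linarith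
                have h7 : w ∈ ball x (3 / (‖x‖ + 1)) := by
                  rw [mem_ball, dist_eq_norm, norm_sub_rev]
                  linarith
                rw [hJ, indicator_of_mem hx', indicator_of_mem h7]
                show ENNReal.ofReal (‖w‖ ^ Dm n) * Phi a k p g x ≤ _
                gcongr
              · rw [hJ, indicator_of_notMem hx']
                exact zero_le
          _ = ENNReal.ofReal ((‖x‖ + 1) ^ Dm n) * Phi a k p g x *
              volume (ball x (3 / (‖x‖ + 1))) := by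
              rw [lintegral_indicator measurableSet_ball, lintegral_const,
                Measure.restrict_apply MeasurableSet.univ, univ_inter]
          _ = (ENNReal.ofReal (3 ^ Dm n) * V1 n) * Phi a k p g x := by
              rw [vol_ball _ hρ]
              have : ENNReal.ofReal (3 ^ Dm n) = ENNReal.ofReal ((‖x‖ + 1) ^ Dm n) *
                  ENNReal.ofReal ((3 / (‖x‖ + 1)) ^ Dm n) := by
                rw [← ENNReal.ofReal_mul (by positivity), ← mul_pow]
                congr 2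
                field_simp
              rw [this]
              ring
    _ = _ := by
        rw [lintegral_const_mul' _ _ (ENNReal.mul_ne_top ENNReal.ofReal_ne_top V1_ne_top)]

end Pool.Agent.T2H71.Fock
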