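import Mathlib
import Pool.Agent.T2H71.Fock.Wt

/-!
Integral operator along rays.
-/

set_option autoImplicit false

open MeasureTheory Metric Set Filter Topology
open scoped ENNReal Real

namespace Pool.Agent.T2H71.Fock

variable {n : ℕ}

lemma lintegral_smul_comp {t : ℝ} (ht : 0 < t) {G : Cn n → ℝ≥0∞} (hG : Measurable G) :
    ∫⁻ z, G (t • z) = ENNReal.ofReal ((t ^ Dm n)⁻¹) * ∫⁻ w, G w := by
  have h := Measure.map_addHaar_smul (volume : Measure (Cn n)) ht.ne'
  have h2 : ∫⁻ z, G (t • z) = ∫⁻ w, G w ∂(Measure.map (t • ·) (volume : Measure (Cn n))) := by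
    rw [lintegral_map hG (measurable_const_smul t)]
  rw [h2, h, lintegral_smul_measure, abs_of_pos (by positivity)]
  rfl

/-- FTC for nonnegative integrands in `lintegral` form -/
lemma lintegral_deriv {φ ψ : ℝ → ℝ} {c d : ℝ} (hcd : c ≤ d) (hd : ∀ t, HasDerivAt φ (ψ t) t)
    (hψc : Continuous ψ) (hψ : ∀ t ∈ Ioc c d, 0 ≤ ψ t) :
    ∫⁻ t in Ioc c d, ENNReal.ofReal (ψ t) = ENNReal.ofReal (φ d - φ c) := by
  rw [← ofReal_integral_eq_lintegral_ofReal]
  · congr 1
    rw [← intervalIntegral.integral_of_le hcd]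
    exact intervalIntegral.integral_eq_sub_of_hasDerivAt (fun t _ => hd t)
      (hψc.intervalIntegrable _ _)
  · exact (hψc.continuousOn.integrableOn_compact isCompact_Icc).mono_set Ioc_subset_Icc_self
  · exact (ae_restrict_iff' measurableSet_Ioc).2 (Eventually.of_forall hψ)

/-- growth constant -/
lemma exists_growth (m : ℕ) {b : ℝ} (hb : 0 < b) :
    ∃ C : ℝ, 0 < C ∧ ∀ x : ℝ, 0 ≤ x → (1 + x) ^ m ≤ C * Real.exp (b * x) := by
  refine ⟨Real.exp b * (m.factorial / b ^ m), by positivity, fun x hx => ?_⟩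
  have h := Real.pow_div_factorial_le_exp (b * (1 + x)) (by positivity) m
  rw [div_le_iff₀ (by positivity), mul_pow] at h
  have h2 : Real.exp (b * (1 + x)) = Real.exp b * Real.exp (b * x) := by
    rw [← Real.exp_add]; ring_nf
  rw [h2] at h
  have h3 : (1 + x) ^ m = (b ^ m * (1 + x) ^ m) / b ^ m := by field_simp
  rw [h3, div_le_iff₀ (by positivity)]
  calc b ^ m * (1 + x) ^ m ≤ Real.exp b * Real.exp (b * x) * (m.factorial : ℝ) := h
    _ = Real.exp b * (m.factorial / b ^ m) * Real.exp (b * x) * b ^ m := by field_simp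

lemma kernel_bound (m : ℕ) {b : ℝ} (hb : 0 < b) :
    ∃ C : ℝ, 0 < C ∧ ∀ s : ℝ, 1 ≤ s →
      ∫⁻ t in Ioc (0 : ℝ) 1, ENNReal.ofReal ((t ^ m)⁻¹ * (t * (s / t ^ 2) *
        Real.exp (-b * (s / t ^ 2) * (1 - t ^ 2)))) ≤ ENNReal.ofReal C := by
  obtain ⟨C, hC, hgr⟩ := exists_growth (m + 1) (half_pos hb)
  refine ⟨C * (1 / b), by positivity, fun s hs => ?_⟩
  have hs0 : 0 < s := by linarith
  have hpt : ∀ t ∈ Ioc (0 : ℝ) 1, (t ^ m)⁻¹ * (t * (s / t ^ 2) *
        Real.exp (-b * (s / t ^ 2) * (1 - t ^ 2))) ≤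
        C * (s * Real.exp (-(b * s) * (1 - t))) := by
    intro t ht
    obtain ⟨ht0, ht1⟩ := ht
    set x := 1 / t ^ 2 - 1 with hx
    have hx2 : 2 * (1 - t) ≤ x := by
      rw [hx, le_sub_iff_add_le, le_div_iff₀ (by positivity)]
      nlinarith [mul_nonneg (sub_nonneg.2 ht1) (sub_nonneg.2 ht1), mul_pos ht0 ht0,
        mul_nonneg (mul_nonneg (sub_nonneg.2 ht1) (sub_nonneg.2 ht1)) ht0.le]
    have hx0 : 0 ≤ x := by linarith
    have e1 : -b * (s / t ^ 2) * (1 - t ^ 2) = -(b * s) * x := by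
      rw [hx]; field_simp
    have e2 : (t ^ m)⁻¹ * (t * (s / t ^ 2) * Real.exp (-b * (s / t ^ 2) * (1 - t ^ 2))) =
        (t ^ (m + 1))⁻¹ * s * Real.exp (-(b * s) * x) := by
      rw [e1]; field_simp; ring
    rw [e2]
    have e3 : (t ^ (m + 1))⁻¹ ≤ (1 + x) ^ (m + 1) := by
      rw [← inv_pow]
      apply pow_le_pow_left₀ (by positivity)
      rw [hx]
      have : t⁻¹ ≤ 1 / t ^ 2 := by
        rw [inv_eq_one_div, div_le_div_iff₀ ht0 (by positivity)]
        nlinarith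
      linarith
    have e4 : (t ^ (m + 1))⁻¹ ≤ C * Real.exp (b * s / 2 * x) := by
      refine e3.trans ((hgr x hx0).trans ?_)
      gcongr
      nlinarith
    calc (t ^ (m + 1))⁻¹ * s * Real.exp (-(b * s) * x)
        ≤ (C * Real.exp (b * s / 2 * x)) * s * Real.exp (-(b * s) * x) := by gcongr
      _ = C * (s * Real.exp (-(b * s) / 2 * x)) := by
          have : Real.exp (-(b * s) / 2 * x) =
              Real.exp (b * s / 2 * x) * Real.exp (-(b * s) * x) := by
            rw [← Real.exp_add]; ring_nf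
          rw [this]; ring
      _ ≤ C * (s * Real.exp (-(b * s) * (1 - t))) := by
          have hbs : 0 < b * s := by positivity
          have h5 := mul_le_mul_of_nonneg_left hx2 hbs.le
          have h6 : -(b * s) / 2 * x ≤ -(b * s) * (1 - t) := by linarith
          exact mul_le_mul_of_nonneg_left
            (mul_le_mul_of_nonneg_left (Real.exp_le_exp.2 h6) hs0.le) hC.le
  calc ∫⁻ t in Ioc (0 : ℝ) 1, ENNReal.ofReal ((t ^ m)⁻¹ * (t * (s / t ^ 2) *
        Real.exp (-b * (s / t ^ 2) * (1 - t ^ 2))))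
      ≤ ∫⁻ t in Ioc (0 : ℝ) 1, ENNReal.ofReal (C * (s * Real.exp (-(b * s) * (1 - t)))) :=
        setLIntegral_mono' measurableSet_Ioc fun t ht => ENNReal.ofReal_le_ofReal (hpt t ht)
    _ = ENNReal.ofReal ((C / b) * Real.exp (-(b * s) * (1 - 1)) -
          (C / b) * Real.exp (-(b * s) * (1 - 0))) := by
        apply lintegral_deriv (φ := fun t => (C / b) * Real.exp (-(b * s) * (1 - t)))
          (ψ := fun t => C * (s * Real.exp (-(b * s) * (1 - t)))) zero_le_one
        · intro t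
          have h1 : HasDerivAt (fun t : ℝ => -(b * s) * (1 - t)) (b * s) t := by
            have := ((hasDerivAt_id t).const_sub 1).const_mul (-(b * s))
            simpa using this
          have h2 := (h1.exp).const_mul (C / b)
          have h3 : C * (s * Real.exp (-(b * s) * (1 - t))) =
              C / b * (Real.exp (-(b * s) * (1 - t)) * (b * s)) := by field_simp
          rw [h3]
          exact h2
        · fun_prop
        · intro t _; positivity
    _ ≤ ENNReal.ofReal (C * (1 / b)) := by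
        apply ENNReal.ofReal_le_ofReal
        have : 0 < (C / b) * Real.exp (-(b * s) * (1 - 0)) := by positivity
        rw [sub_self, mul_zero, Real.exp_zero]
        have e : C / b * 1 = C * (1 / b) := by ring
        linarith


lemma tonelli_ray {A : Cn n → ℝ → ℝ≥0∞} {B : ℝ → Cn n → ℝ≥0∞}
    (hAm : Measurable (Function.uncurry A)) (hBm : Measurable (Function.uncurry B))
    (hAB : ∀ t ∈ Ioc (0 : ℝ) 1, ∀ z, A z t = B t (t • z)) :
    ∫⁻ z, ∫⁻ t in Ioc (0 : ℝ) 1, A z t =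
      ∫⁻ w, ∫⁻ t in Ioc (0 : ℝ) 1, ENNReal.ofReal ((t ^ Dm n)⁻¹) * B t w := by
  have hBm1 : ∀ t, Measurable (B t) := fun t => hBm.comp measurable_prodMk_left
  calc ∫⁻ z, ∫⁻ t in Ioc (0 : ℝ) 1, A z t
      = ∫⁻ t in Ioc (0 : ℝ) 1, ∫⁻ z, A z t := lintegral_lintegral_swap hAm.aemeasurable
    _ = ∫⁻ t in Ioc (0 : ℝ) 1, ∫⁻ w, ENNReal.ofReal ((t ^ Dm n)⁻¹) * B t w := by
        apply setLIntegral_congr_fun measurableSet_Ioc
        intro t ht
        simp only
        rw [lintegral_congr (hAB t ht), lintegral_smul_comp ht.1 (hBm1 t),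
          lintegral_const_mul' _ _ ENNReal.ofReal_ne_top]
    _ = ∫⁻ w, ∫⁻ t in Ioc (0 : ℝ) 1, ENNReal.ofReal ((t ^ Dm n)⁻¹) * B t w := by
        apply lintegral_lintegral_swap
        have : Measurable (fun q : ℝ × Cn n => ENNReal.ofReal ((q.1 ^ Dm n)⁻¹) * B q.1 q.2) :=
          (((measurable_fst.pow_const _).inv).ennreal_ofReal).mul hBm
        exact this.aemeasurable

/-- integrand along rays -/
noncomputable def kA (b : ℝ) (H : Cn n → ℝ≥0∞) (z : Cn n) (t : ℝ) : ℝ≥0∞ :=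
  {q : Cn n × ℝ | 1 ≤ q.2 * ‖q.1‖}.indicator (fun q => H (q.2 • q.1) *
    ENNReal.ofReal (q.2 * ‖q.1‖ ^ 2 * Real.exp (-b * ‖q.1‖ ^ 2 * (1 - q.2 ^ 2)))) (z, t)

/-- transformed integrand -/
noncomputable def kB (b : ℝ) (H : Cn n → ℝ≥0∞) (t : ℝ) (w : Cn n) : ℝ≥0∞ :=
  {w : Cn n | 1 ≤ ‖w‖}.indicator (fun w => H w * ENNReal.ofReal (t * (‖w‖ ^ 2 / t ^ 2) *
          Real.exp (-b * (‖w‖ ^ 2 / t ^ 2) * (1 - t ^ 2)))) w

lemma measurable_kA (b : ℝ) {H : Cn n → ℝ≥0∞} (hH : Measurable H) :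
    Measurable (Function.uncurry (kA b H)) := by
  have h : Function.uncurry (kA b H) =
    {q : Cn n × ℝ | 1 ≤ q.2 * ‖q.1‖}.indicator (fun q => H (q.2 • q.1) *
    ENNReal.ofReal (q.2 * ‖q.1‖ ^ 2 * Real.exp (-b * ‖q.1‖ ^ 2 * (1 - q.2 ^ 2)))) := by
    funext q
    rfl
  rw [h]
  have h1 : Measurable (fun q : Cn n × ℝ => H (q.2 • q.1)) :=
    hH.comp (measurable_snd.smul measurable_fst)
  have h2 : Continuous (fun q : Cn n × ℝ =>
          q.2 * ‖q.1‖ ^ 2 * Real.exp (-b * ‖q.1‖ ^ 2 * (1 - q.2 ^ 2))) := by fun_prop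
  have h3 : MeasurableSet {q : Cn n × ℝ | 1 ≤ q.2 * ‖q.1‖} :=
    measurableSet_le measurable_const (measurable_snd.mul measurable_fst.norm)
  exact (h1.mul h2.measurable.ennreal_ofReal).indicator h3

lemma measurable_kB (b : ℝ) {H : Cn n → ℝ≥0∞} (hH : Measurable H) :
    Measurable (Function.uncurry (kB b H)) := by
  have h : Function.uncurry (kB b H) =
    {q : ℝ × Cn n | 1 ≤ ‖q.2‖}.indicator (fun q => H q.2 *
      ENNReal.ofReal (q.1 * (‖q.2‖ ^ 2 / q.1 ^ 2) *
          Real.exp (-b * (‖q.2‖ ^ 2 / q.1 ^ 2) * (1 - q.1 ^ 2)))) := by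
    funext q
    rfl
  rw [h]
  have h1 : Measurable (fun q : ℝ × Cn n => ‖q.2‖ ^ 2 / q.1 ^ 2) :=
    (measurable_snd.norm.pow_const 2).div (measurable_fst.pow_const 2)
  have h2 : Measurable (fun q : ℝ × Cn n => q.1 * (‖q.2‖ ^ 2 / q.1 ^ 2) *
          Real.exp (-b * (‖q.2‖ ^ 2 / q.1 ^ 2) * (1 - q.1 ^ 2))) :=
    (measurable_fst.mul h1).mul (((measurable_const.mul h1).mul
            (measurable_const.sub (measurable_fst.pow_const 2))).exp)
  have h3 : MeasurableSet {q : ℝ × Cn n | 1 ≤ ‖q.2‖} :=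
    measurableSet_le measurable_const measurable_snd.norm
  exact ((hH.comp measurable_snd).mul h2.ennreal_ofReal).indicator h3

lemma kA_eq_kB (b : ℝ) (H : Cn n → ℝ≥0∞) : ∀ t ∈ Ioc (0 : ℝ) 1, ∀ z,
    kA b H z t = kB b H t (t • z) := by
  intro t ht z
  have ht0 : 0 < t := ht.1
  have e1 : ‖t • z‖ = t * ‖z‖ := by rw [norm_smul, Real.norm_of_nonneg ht0.le]
  have e2 : (t * ‖z‖) ^ 2 / t ^ 2 = ‖z‖ ^ 2 := by field_simp
  unfold kA kB
  by_cases h : 1 ≤ t * ‖z‖
  · rw [indicator_of_mem (show (z, t) ∈ {q : Cn n × ℝ | 1 ≤ q.2 * ‖q.1‖} from h),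
      indicator_of_mem (show t • z ∈ {w : Cn n | 1 ≤ ‖w‖} from by
        show 1 ≤ ‖t • z‖
        rw [e1]; exact h), e1, e2]
  · rw [indicator_of_notMem (show (z, t) ∉ {q : Cn n × ℝ | 1 ≤ q.2 * ‖q.1‖} from h),
      indicator_of_notMem (show t • z ∉ {w : Cn n | 1 ≤ ‖w‖} from by
        show ¬ (1 ≤ ‖t • z‖)
        rw [e1]; exact h)]

theorem SCH {b : ℝ} (hb : 0 < b) (n : ℕ) :
    ∃ C : ℝ, 0 < C ∧ ∀ H : Cn n → ℝ≥0∞, Measurable H →
      ∫⁻ z, ∫⁻ t in Ioc (0 : ℝ) 1, kA b H z t ≤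
      ENNReal.ofReal C * ∫⁻ w in {w : Cn n | 1 ≤ ‖w‖}, H w := by
  obtain ⟨C, hC, hker⟩ := kernel_bound (Dm n) hb
  refine ⟨C, hC, fun H hH => ?_⟩
  have hS : MeasurableSet {w : Cn n | 1 ≤ ‖w‖} := measurableSet_le measurable_const measurable_norm
  rw [tonelli_ray (measurable_kA b hH) (measurable_kB b hH) (kA_eq_kB b H)]
  calc ∫⁻ w, ∫⁻ t in Ioc (0 : ℝ) 1, ENNReal.ofReal ((t ^ Dm n)⁻¹) * kB b H t w
    _ ≤ ∫⁻ w, {w : Cn n | 1 ≤ ‖w‖}.indicator (fun w => ENNReal.ofReal C * H w) w := by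
        apply lintegral_mono
        intro w
        show ∫⁻ t in Ioc (0 : ℝ) 1, ENNReal.ofReal ((t ^ Dm n)⁻¹) * kB b H t w ≤
          {w : Cn n | 1 ≤ ‖w‖}.indicator (fun w => ENNReal.ofReal C * H w) w
        by_cases hw : 1 ≤ ‖w‖
        · rw [indicator_of_mem (show w ∈ {w : Cn n | 1 ≤ ‖w‖} from hw)]
          have e : ∀ t ∈ Ioc (0 : ℝ) 1, ENNReal.ofReal ((t ^ Dm n)⁻¹) * kB b H t w =
              ENNReal.ofReal ((t ^ Dm n)⁻¹ * (t * (‖w‖ ^ 2 / t ^ 2) *
                Real.exp (-b * (‖w‖ ^ 2 / t ^ 2) * (1 - t ^ 2)))) * H w := by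
            intro t ht
            have ht0 : 0 < t := ht.1
            unfold kB
            rw [indicator_of_mem (show w ∈ {w : Cn n | 1 ≤ ‖w‖} from hw),
              ENNReal.ofReal_mul (by positivity : 0 ≤ (t ^ Dm n)⁻¹)]
            ring
          rw [setLIntegral_congr_fun measurableSet_Ioc e, lintegral_mul_const'']
          · gcongr
            exact hker _ (by nlinarith)
          · apply Measurable.aemeasurable
            apply Measurable.ennreal_ofReal
            have h1 : Measurable (fun q : ℝ => ‖w‖ ^ 2 / q ^ 2) :=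
              measurable_const.div (measurable_id.pow_const 2)
            exact ((measurable_id.pow_const _).inv).mul ((measurable_id.mul h1).mul
              (((measurable_const.mul h1).mul
              (measurable_const.sub (measurable_id.pow_const 2))).exp))
        · rw [indicator_of_notMem (show w ∉ {w : Cn n | 1 ≤ ‖w‖} from hw)]
          have e : ∀ t, ENNReal.ofReal ((t ^ Dm n)⁻¹) * kB b H t w = 0 := by
            intro t
            unfold kB
            rw [indicator_of_notMem (show w ∉ {w : Cn n | 1 ≤ ‖w‖} from hw), mul_zero]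
          simp only [e, lintegral_zero, le_refl]
    _ = _ := by
        rw [lintegral_indicator hS, lintegral_const_mul' _ _ ENNReal.ofReal_ne_top]

end Pool.Agent.T2H71.Fock
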