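import Mathlib
import Pool.Agent.T2H71.Fock.Sch

/-!
Estimates along a single ray.
-/

set_option autoImplicit false

open MeasureTheory Metric Set Filter Topology
open scoped ENNReal Real

namespace Pool.Agent.T2H71.Fock

variable {n : ℕ}

/-- weighted Jensen inequality -/
lemma jensen_lintegral {α : Type*} [MeasurableSpace α] (μ : Measure α) {u w : α → ℝ≥0∞}
    (hu : AEMeasurable u μ) (hw : AEMeasurable w μ) {p : ℝ} (hp : 1 ≤ p) :
    (∫⁻ x, u x * w x ∂μ) ^ p ≤ (∫⁻ x, u x ^ p * w x ∂μ) * (∫⁻ x, w x ∂μ) ^ (p - 1) := by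
  rcases hp.eq_or_lt with rfl | hp1
  · simp
  have hp0 : 0 < p := by linarith
  have hpq : p.HolderConjugate (p.conjExponent) := Real.HolderConjugate.conjExponent hp1
  set q := p.conjExponent with hq
  have hq0 : 0 < q := hpq.symm.pos
  have hsum : 1 / p + 1 / q = 1 := by
    have := hpq.inv_add_inv_eq_one
    rw [one_div, one_div]; exact this
  have h := ENNReal.lintegral_mul_le_Lp_mul_Lq μ hpq (f := fun x => u x * w x ^ (1 / p))
    (g := fun x => w x ^ (1 / q)) (hu.mul (hw.pow_const _)) (hw.pow_const _)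
  have e1 : ∀ x, ((fun x => u x * w x ^ (1 / p)) * (fun x => w x ^ (1 / q))) x = u x * w x := by
    intro x
    show u x * w x ^ (1 / p) * w x ^ (1 / q) = u x * w x
    rw [mul_assoc, ← ENNReal.rpow_add_of_nonneg _ _ (by positivity) (by positivity), hsum,
      ENNReal.rpow_one]
  have e2 : ∀ x, (u x * w x ^ (1 / p)) ^ p = u x ^ p * w x := by
    intro x
    rw [ENNReal.mul_rpow_of_nonneg _ _ hp0.le, ← ENNReal.rpow_mul, one_div,
      inv_mul_cancel₀ hp0.ne', ENNReal.rpow_one]
  have e3 : ∀ x, (w x ^ (1 / q)) ^ q = w x := by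
    intro x
    rw [← ENNReal.rpow_mul, one_div, inv_mul_cancel₀ hq0.ne', ENNReal.rpow_one]
  simp only [e2, e3] at h
  rw [lintegral_congr e1] at h
  have h2 := ENNReal.rpow_le_rpow h hp0.le
  rw [ENNReal.mul_rpow_of_nonneg _ _ hp0.le, ← ENNReal.rpow_mul, ← ENNReal.rpow_mul] at h2
  have e4 : 1 / p * p = 1 := by field_simp
  have e5 : 1 / q * p = p - 1 := by
    have : 1 / q = 1 - 1 / p := by linarith
    rw [this]; field_simp
  rw [e4, e5, ENNReal.rpow_one] at h2
  exact h2

/-- replacement of the Jensen inequality for small exponents -/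
lemma small_lintegral {α : Type*} [MeasurableSpace α] (μ : Measure α) {u v : α → ℝ≥0∞}
    {p : ℝ} (hp : 0 < p) (hp1 : p ≤ 1) {K : ℝ≥0∞}
    (hK : ∀ᵐ x ∂μ, u x ^ p ≤ K) (hI : ∫⁻ x, u x ^ p * v x ∂μ ≤ K) (hKt : K ≠ ∞) :
    (∫⁻ x, u x * v x ∂μ) ^ p ≤ K := by
  have h1 : ∫⁻ x, u x * v x ∂μ ≤ K ^ ((1 - p) / p) * ∫⁻ x, u x ^ p * v x ∂μ := by
    rw [← lintegral_const_mul' _ _ (ENNReal.rpow_ne_top_of_nonneg
      (div_nonneg (by linarith) hp.le) hKt)]
    apply lintegral_mono_ae
    filter_upwards [hK] with x hx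
    rw [← mul_assoc]
    gcongr
    calc u x = u x ^ (1 - p) * u x ^ p := by
          rw [← ENNReal.rpow_add_of_nonneg _ _ (by linarith) hp.le, sub_add_cancel,
            ENNReal.rpow_one]
      _ = (u x ^ p) ^ ((1 - p) / p) * u x ^ p := by
          congr 1
          rw [← ENNReal.rpow_mul]
          congr 1
          field_simp
      _ ≤ K ^ ((1 - p) / p) * u x ^ p := by
          gcongr
  calc (∫⁻ x, u x * v x ∂μ) ^ p ≤ (K ^ ((1 - p) / p) * K) ^ p := by
        apply ENNReal.rpow_le_rpow _ hp.le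
        exact h1.trans (by gcongr)
    _ = K ^ (1 - p) * K ^ p := by
        rw [ENNReal.mul_rpow_of_nonneg _ _ hp.le, ← ENNReal.rpow_mul]
        congr 2
        field_simp
    _ = K := by
        rw [← ENNReal.rpow_add_of_nonneg _ _ (by linarith) hp.le, sub_add_cancel,
          ENNReal.rpow_one]

/-- exponential kernel along the ray of length `r` -/
noncomputable def kk (b r t : ℝ) : ℝ := t * r ^ 2 * Real.exp (-b * r ^ 2 * (1 - t ^ 2))

lemma continuous_kk (b r : ℝ) : Continuous (kk b r) := by unfold kk; fun_prop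

lemma lintegral_kk_le {b r c : ℝ} (hb : 0 < b) (hc : 0 < c) (hc1 : c ≤ 1) :
    ∫⁻ t in Ioc c 1, ENNReal.ofReal (kk b r t) ≤ ENNReal.ofReal (1 / (2 * b)) := by
  have hφ : ∀ t, HasDerivAt (fun t => 1 / (2 * b) * Real.exp (-b * r ^ 2 * (1 - t ^ 2)))
      (kk b r t) t := by
    intro t
    have h1 : HasDerivAt (fun t : ℝ => -b * r ^ 2 * (1 - t ^ 2)) (-b * r ^ 2 * (-(2 * t))) t := by
      have := ((hasDerivAt_pow 2 t).const_sub 1).const_mul (-b * r ^ 2)
      simpa using this
    have h2 := (h1.exp).const_mul (1 / (2 * b))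
    have h3 : kk b r t = 1 / (2 * b) * (Real.exp (-b * r ^ 2 * (1 - t ^ 2)) *
        (-b * r ^ 2 * (-(2 * t)))) := by
      unfold kk
      field_simp
    rw [h3]
    exact h2
  rw [lintegral_deriv hc1 hφ (continuous_kk b r)]
  · apply ENNReal.ofReal_le_ofReal
    have : 0 < 1 / (2 * b) * Real.exp (-b * r ^ 2 * (1 - c ^ 2)) := by positivity
    have e : Real.exp (-b * r ^ 2 * (1 - 1 ^ 2)) = 1 := by
      rw [one_pow, sub_self, mul_zero, Real.exp_zero]
    rw [e]
    linarith
  · intro t ht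
    have : 0 < t := hc.trans ht.1
    unfold kk
    positivity

/-- the local constant along rays -/
noncomputable def C4 (n : ℕ) (a : ℝ) (k : ℕ) (p : ℝ) : ℝ≥0∞ :=
  C1 n a k p * ENNReal.ofReal (8 / (7 / 8 * Real.exp (-(a * p) / 4)))

lemma C4_ne_top (n : ℕ) (a : ℝ) (k : ℕ) (p : ℝ) : C4 n a k p ≠ ∞ :=
  ENNReal.mul_ne_top (C1_ne_top n a k p) ENNReal.ofReal_ne_top

lemma C1_le_C4 (n : ℕ) {a : ℝ} (ha : 0 < a) (k : ℕ) {p : ℝ} (hp : 0 < p) :
    C1 n a k p ≤ C4 n a k p := by
  unfold C4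
  calc C1 n a k p = C1 n a k p * 1 := (mul_one _).symm
    _ ≤ _ := by
      gcongr
      rw [ENNReal.one_le_ofReal, le_div_iff₀ (by positivity), one_mul]
      have : Real.exp (-(a * p) / 4) ≤ 1 := by
        apply Real.exp_le_one_iff.2
        have : 0 < a * p := by positivity
        linarith
      linarith

/-- local supremum bound along a ray -/
lemma local_sup {h : Cn n → ℂ} (hh : Differentiable ℂ h) {a : ℝ} (ha : 0 < a) (k : ℕ) {p : ℝ}
    (hp : 0 < p) {z : Cn n} (hz : 2 ≤ ‖z‖) {t : ℝ} (ht : t ∈ Ioc (1 / ‖z‖) 1) :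
    Phi a k p h (t • z) * ENNReal.ofReal (Real.exp (-(a * p) * ‖z‖ ^ 2 * (1 - t ^ 2))) ≤
      C4 n a k p * ∫⁻ s in Ioc (1 / ‖z‖) 1,
        F a k p h (s • z) * ENNReal.ofReal (kk (a * p) ‖z‖ s) := by
  set r := ‖z‖ with hr
  set b := a * p with hb
  have hb0 : 0 < b := by positivity
  have hr0 : 0 < r := by linarith
  obtain ⟨ht1, ht2⟩ := ht
  have hr1 : 1 / r ≤ 1 / 2 := by
    rw [div_le_div_iff₀ hr0 (by norm_num)]; linarith
  have ht0 : 0 < t := lt_trans (by positivity) ht1
  have htr : 1 ≤ t * r := by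
    rw [div_lt_iff₀ hr0] at ht1; exact ht1.le
  set δ := 1 / (8 * (t * r ^ 2)) with hδ
  have hδ0 : 0 < δ := by positivity
  have hδt : δ ≤ t / 8 := by
    rw [hδ, div_le_div_iff₀ (by positivity) (by norm_num)]
    nlinarith
  have hδr : δ ≤ 1 / 16 := by
    rw [hδ, div_le_div_iff₀ (by positivity) (by norm_num)]
    nlinarith
  set c := 7 / 8 * Real.exp (-b / 4) with hc
  have hc0 : 0 < c := by positivity
  -- the interval
  have hJ : ∃ J : Set ℝ, MeasurableSet J ∧ J ⊆ Ioc (1 / r) 1 ∧ volume J = ENNReal.ofReal δ ∧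
      ∀ s ∈ J, |s - t| ≤ δ := by
    by_cases h34 : t ≤ 3 / 4
    · refine ⟨Ioc t (t + δ), measurableSet_Ioc, ?_, ?_, ?_⟩
      · intro s hs
        exact ⟨ht1.trans hs.1, by linarith [hs.2]⟩
      · rw [Real.volume_Ioc]; congr 1; ring
      · intro s hs
        rw [abs_le]; constructor <;> linarith [hs.1, hs.2]
    · push Not at h34
      refine ⟨Ioc (t - δ) t, measurableSet_Ioc, ?_, ?_, ?_⟩
      · intro s hs
        exact ⟨by linarith [hs.1], hs.2.trans ht2⟩
      · rw [Real.volume_Ioc]; congr 1; ring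
      · intro s hs
        rw [abs_le]; constructor <;> linarith [hs.1, hs.2]
  obtain ⟨J, hJm, hJsub, hJvol, hJd⟩ := hJ
  have hpt : ∀ s ∈ J, Phi a k p h (t • z) *
      ENNReal.ofReal (Real.exp (-b * r ^ 2 * (1 - t ^ 2))) * ENNReal.ofReal (c * (t * r ^ 2)) ≤
      C1 n a k p * (F a k p h (s • z) * ENNReal.ofReal (kk b r s)) := by
    intro s hs
    have hd := abs_le.1 (hJd s hs)
    have hs1 : 7 / 8 * t ≤ s := by linarith [hd.1]
    have hs2 : s ≤ 9 / 8 * t := by linarith [hd.2]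
    have hs0 : 0 < s := by linarith
    have hsr : 1 ≤ s * r := by
      have := (hJsub hs).1
      rw [div_lt_iff₀ hr0] at this
      exact this.le
    have hns : ‖s • z‖ = s * r := by rw [norm_smul, Real.norm_of_nonneg hs0.le]
    have hdist : ‖t • z - s • z‖ ≤ 1 / (2 * ‖s • z‖) := by
      rw [← sub_smul, norm_smul, Real.norm_eq_abs, abs_sub_comm, ← hr, hns]
      calc |s - t| * r ≤ δ * r := by gcongr; exact hJd s hs
        _ ≤ 1 / (2 * (s * r)) := by
          rw [hδ, le_div_iff₀ (by positivity)]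
          have e : 1 / (8 * (t * r ^ 2)) * r * (2 * (s * r)) = s / (4 * t) := by
            field_simp; ring
          rw [e, div_le_one (by positivity)]
          linarith
    have hLA := LA hh ha k hp (w := s • z) (w' := t • z) (by rw [hns]; exact hsr) hdist
    have hk : Real.exp (-b * r ^ 2 * (1 - t ^ 2)) * (c * (t * r ^ 2)) ≤ kk b r s := by
      unfold kk
      have h1 : Real.exp (-b * r ^ 2 * (1 - t ^ 2)) * Real.exp (-b / 4) ≤
          Real.exp (-b * r ^ 2 * (1 - s ^ 2)) := by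
        rw [← Real.exp_add]
        apply Real.exp_le_exp.2
        have h2 : r ^ 2 * (t ^ 2 - s ^ 2) ≤ 1 / 4 := by
          by_cases hst : s ≤ t
          · have e1 : t ^ 2 - s ^ 2 ≤ δ * (2 * t) := by
              have : t ^ 2 - s ^ 2 = (t - s) * (t + s) := by ring
              rw [this]
              exact mul_le_mul (by linarith [hd.1]) (by linarith) (by positivity) hδ0.le
            calc r ^ 2 * (t ^ 2 - s ^ 2) ≤ r ^ 2 * (δ * (2 * t)) := by gcongr
              _ = 1 / 4 := by rw [hδ]; field_simp; norm_num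
          · push Not at hst
            have : t ^ 2 - s ^ 2 ≤ 0 := by nlinarith
            have : r ^ 2 * (t ^ 2 - s ^ 2) ≤ 0 :=
              mul_nonpos_of_nonneg_of_nonpos (by positivity) this
            linarith
        nlinarith
      calc Real.exp (-b * r ^ 2 * (1 - t ^ 2)) * (c * (t * r ^ 2))
          = (7 / 8 * t) * r ^ 2 * (Real.exp (-b * r ^ 2 * (1 - t ^ 2)) * Real.exp (-b / 4)) := by
            rw [hc]; ring
        _ ≤ s * r ^ 2 * Real.exp (-b * r ^ 2 * (1 - s ^ 2)) := by gcongr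
    calc Phi a k p h (t • z) *
      ENNReal.ofReal (Real.exp (-b * r ^ 2 * (1 - t ^ 2))) * ENNReal.ofReal (c * (t * r ^ 2))
        = Phi a k p h (t • z) *
          ENNReal.ofReal (Real.exp (-b * r ^ 2 * (1 - t ^ 2)) * (c * (t * r ^ 2))) := by
          rw [ENNReal.ofReal_mul (Real.exp_pos _).le, mul_assoc]
      _ ≤ (C1 n a k p * F a k p h (s • z)) * ENNReal.ofReal (kk b r s) := by gcongr
      _ = _ := by ring
  have hint : Phi a k p h (t • z) *
      ENNReal.ofReal (Real.exp (-b * r ^ 2 * (1 - t ^ 2))) * ENNReal.ofReal (c / 8) ≤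
      C1 n a k p * ∫⁻ s in Ioc (1 / r) 1, F a k p h (s • z) * ENNReal.ofReal (kk b r s) := by
    calc Phi a k p h (t • z) *
        ENNReal.ofReal (Real.exp (-b * r ^ 2 * (1 - t ^ 2))) * ENNReal.ofReal (c / 8)
        = ∫⁻ s in J, Phi a k p h (t • z) *
      ENNReal.ofReal (Real.exp (-b * r ^ 2 * (1 - t ^ 2))) * ENNReal.ofReal (c * (t * r ^ 2)) := by
          rw [lintegral_const, Measure.restrict_apply MeasurableSet.univ, univ_inter, hJvol,
            mul_assoc _ (ENNReal.ofReal (c * (t * r ^ 2))), ← ENNReal.ofReal_mul (by positivity)]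
          congr 2
          rw [hδ]; field_simp
      _ ≤ ∫⁻ s in J, C1 n a k p * (F a k p h (s • z) * ENNReal.ofReal (kk b r s)) :=
          setLIntegral_mono' hJm hpt
      _ = C1 n a k p * ∫⁻ s in J, (F a k p h (s • z) * ENNReal.ofReal (kk b r s)) := by
          rw [lintegral_const_mul' _ _ (C1_ne_top n a k p)]
      _ ≤ _ := by
          gcongr
  calc Phi a k p h (t • z) * ENNReal.ofReal (Real.exp (-b * r ^ 2 * (1 - t ^ 2)))
      = (Phi a k p h (t • z) * ENNReal.ofReal (Real.exp (-b * r ^ 2 * (1 - t ^ 2))) *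
        ENNReal.ofReal (c / 8)) * ENNReal.ofReal (8 / c) := by
        rw [mul_assoc _ (ENNReal.ofReal (c / 8)), ← ENNReal.ofReal_mul (by positivity)]
        have : c / 8 * (8 / c) = 1 := by field_simp
        rw [this, ENNReal.ofReal_one, mul_one]
    _ ≤ (C1 n a k p * ∫⁻ s in Ioc (1 / r) 1, F a k p h (s • z) * ENNReal.ofReal (kk b r s)) *
        ENNReal.ofReal (8 / c) := by gcongr
    _ = _ := by
        unfold C4
        rw [← hb, ← hc]
        ring

end Pool.Agent.T2H71.Fock
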