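import Mathlib
import Pool.Agent.T2H71.Fock.Ray

/-!
From the radial derivative back to the function.
-/

set_option autoImplicit false

open MeasureTheory Metric Set Filter Topology
open scoped ENNReal Real

namespace Pool.Agent.T2H71.Fock

variable {n : ℕ}

/-- radial derivative in invariant form -/
noncomputable def RD (g : Cn n → ℂ) (z : Cn n) : ℂ := fderiv ℂ g z z

lemma differentiable_RD {g : Cn n → ℂ} (hg : Differentiable ℂ g) : Differentiable ℂ (RD g) := by
  have h1 : ContDiffOn ℂ (2 : ℕ) g univ :=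
    Pool.Agent.Helper540.contDiffOn_of_differentiableOn isOpen_univ hg.differentiableOn 2
  have h2 : ContDiff ℂ (2 : ℕ) g := contDiffOn_univ.1 h1
  have h3 : ContDiff ℂ 1 (fderiv ℂ g) := h2.fderiv_right (by norm_num)
  exact (h3.differentiable (by norm_num)).clm_apply differentiable_id

lemma continuous_fderiv' {g : Cn n → ℂ} (hg : Differentiable ℂ g) :
    Continuous (fderiv ℂ g) := by
  have h1 : ContDiffOn ℂ (2 : ℕ) g univ :=
    Pool.Agent.Helper540.contDiffOn_of_differentiableOn isOpen_univ hg.differentiableOn 2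
  have h2 : ContDiff ℂ (2 : ℕ) g := contDiffOn_univ.1 h1
  exact h2.continuous_fderiv (by norm_num)

lemma ray {g : Cn n → ℂ} (hg : Differentiable ℂ g) (z : Cn n) {c : ℝ} (hc : 0 < c) (hc1 : c ≤ 1) :
    ENNReal.ofReal ‖g z‖ ≤ ENNReal.ofReal ‖g (c • z)‖ +
      ∫⁻ t in Ioc c 1, ENNReal.ofReal (‖RD g (t • z)‖ / t) := by
  have hder : ∀ t : ℝ, HasDerivAt (fun t : ℝ => g (t • z)) (fderiv ℂ g (t • z) z) t := by
    intro t
    have h1 : HasFDerivAt g ((fderiv ℂ g (t • z)).restrictScalars ℝ) (t • z) :=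
      (hg (t • z)).hasFDerivAt.restrictScalars ℝ
    have h2 : HasDerivAt (fun t : ℝ => t • z) z t := by
      simpa using (hasDerivAt_id t).smul_const z
    exact h1.comp_hasDerivAt t h2
  have hcont : Continuous (fun t : ℝ => fderiv ℂ g (t • z) z) :=
    ((continuous_fderiv' hg).comp (continuous_id.smul continuous_const)).clm_apply
      continuous_const
  have hint := intervalIntegral.integral_eq_sub_of_hasDerivAt (a := c) (b := 1)
    (fun t _ => hder t) (hcont.intervalIntegrable _ _)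
  simp only [one_smul] at hint
  rw [intervalIntegral.integral_of_le hc1] at hint
  have h3 : g z = g (c • z) + ∫ t in Ioc c 1, fderiv ℂ g (t • z) z := by rw [hint]; ring
  have h4 : ‖∫ t in Ioc c 1, fderiv ℂ g (t • z) z‖ₑ ≤
      ∫⁻ t in Ioc c 1, ‖fderiv ℂ g (t • z) z‖ₑ := enorm_integral_le_lintegral_enorm _
  calc ENNReal.ofReal ‖g z‖ = ‖g z‖ₑ := ofReal_norm _
    _ ≤ ‖g (c • z)‖ₑ + ‖∫ t in Ioc c 1, fderiv ℂ g (t • z) z‖ₑ := by
        rw [h3]; exact enorm_add_le _ _
    _ ≤ ENNReal.ofReal ‖g (c • z)‖ + ∫⁻ t in Ioc c 1, ENNReal.ofReal (‖RD g (t • z)‖ / t) := by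
        rw [ofReal_norm]
        gcongr
        refine h4.trans (le_of_eq ?_)
        apply setLIntegral_congr_fun measurableSet_Ioc
        intro t ht
        have ht0 : 0 < t := hc.trans ht.1
        simp only
        rw [← ofReal_norm]
        congr 1
        unfold RD
        rw [ContinuousLinearMap.map_smul_of_tower, norm_smul, Real.norm_of_nonneg ht0.le]
        field_simp


lemma ray_weight {g : Cn n → ℂ} (a : ℝ) (k : ℕ) {z : Cn n} {t : ℝ} (ht0 : 0 < t)
    (ht1 : t ≤ 1) (htz : 1 ≤ t * ‖z‖) :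
    ‖RD g (t • z)‖ / t * wt a k z ≤ 2 * (U a (k + 1) (RD g) (t • z) * kk a ‖z‖ t) := by
  set r := ‖z‖ with hr
  have hr0 : 0 < r := by
    by_contra h
    push Not at h
    nlinarith
  have hns : ‖t • z‖ = t * r := by rw [norm_smul, Real.norm_of_nonneg ht0.le]
  unfold U wt kk
  rw [hns, ← hr]
  have e1 : Real.exp (-a * r ^ 2) =
      Real.exp (-a * (t * r) ^ 2) * Real.exp (-a * r ^ 2 * (1 - t ^ 2)) := by
    rw [← Real.exp_add]; ring_nf
  rw [e1]
  set N := ‖RD g (t • z)‖ with hN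
  set E1 := Real.exp (-a * (t * r) ^ 2) with hE1
  set E2 := Real.exp (-a * r ^ 2 * (1 - t ^ 2)) with hE2
  have hE1p : 0 < E1 := Real.exp_pos _
  have hE2p : 0 < E2 := Real.exp_pos _
  have hN0 : 0 ≤ N := norm_nonneg _
  have h1 : (1 + (t * r) ^ 2) ^ (k + 1) ≤ 2 * (t * r) ^ 2 * (1 + r ^ 2) ^ k := by
    rw [pow_succ, mul_comm]
    apply mul_le_mul
    · nlinarith
    · apply pow_le_pow_left₀ (by positivity)
      have : (t * r) ^ 2 ≤ r ^ 2 := by
        apply pow_le_pow_left₀ (by positivity)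
        nlinarith
      linarith
    · positivity
    · positivity
  have h2 : 1 / (t * (1 + r ^ 2) ^ k) ≤ 2 * (t * r ^ 2) / (1 + (t * r) ^ 2) ^ (k + 1) := by
    rw [div_le_div_iff₀ (by positivity) (by positivity), one_mul]
    calc (1 + (t * r) ^ 2) ^ (k + 1) ≤ 2 * (t * r) ^ 2 * (1 + r ^ 2) ^ k := h1
      _ = 2 * (t * r ^ 2) * (t * (1 + r ^ 2) ^ k) := by ring
  calc N / t * (E1 * E2 / (1 + r ^ 2) ^ k) = N * E1 * E2 * (1 / (t * (1 + r ^ 2) ^ k)) := by
        field_simp
    _ ≤ N * E1 * E2 * (2 * (t * r ^ 2) / (1 + (t * r) ^ 2) ^ (k + 1)) := by gcongr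
    _ = _ := by ring

/-- pointwise Hardy inequality -/
lemma hardy {g : Cn n → ℂ} (hg : Differentiable ℂ g) {a : ℝ} (k : ℕ) {M : ℝ}
    (hM : ∀ y : Cn n, ‖y‖ ≤ 1 → ‖g y‖ ≤ M) {z : Cn n} (hz : 1 ≤ ‖z‖) :
    ENNReal.ofReal (U a k g z) ≤ ENNReal.ofReal (M * Real.exp (-a * ‖z‖ ^ 2)) +
      2 * ∫⁻ t in Ioc (1 / ‖z‖) 1, ENNReal.ofReal (U a (k + 1) (RD g) (t • z)) *
        ENNReal.ofReal (kk a ‖z‖ t) := by
  have hr0 : 0 < ‖z‖ := by linarith
  have hc1 : 1 / ‖z‖ ≤ 1 := by rw [div_le_one hr0]; exact hz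
  have h := ray hg z (c := 1 / ‖z‖) (by positivity) hc1
  have hM0 : 0 ≤ M := (norm_nonneg _).trans (hM 0 (by simp))
  have hn1 : ‖(1 / ‖z‖) • z‖ ≤ 1 := by
    rw [norm_smul, Real.norm_of_nonneg (by positivity)]
    rw [one_div_mul_cancel hr0.ne']
  calc ENNReal.ofReal (U a k g z) = ENNReal.ofReal ‖g z‖ * ENNReal.ofReal (wt a k z) := by
        unfold U; rw [ENNReal.ofReal_mul (norm_nonneg _)]
    _ ≤ (ENNReal.ofReal ‖g ((1 / ‖z‖) • z)‖ +
      ∫⁻ t in Ioc (1 / ‖z‖) 1, ENNReal.ofReal (‖RD g (t • z)‖ / t)) *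
        ENNReal.ofReal (wt a k z) := by gcongr
    _ = ENNReal.ofReal ‖g ((1 / ‖z‖) • z)‖ * ENNReal.ofReal (wt a k z) +
      ∫⁻ t in Ioc (1 / ‖z‖) 1, ENNReal.ofReal (‖RD g (t • z)‖ / t) *
        ENNReal.ofReal (wt a k z) := by
        rw [add_mul, lintegral_mul_const' _ _ ENNReal.ofReal_ne_top]
    _ ≤ ENNReal.ofReal (M * Real.exp (-a * ‖z‖ ^ 2)) +
      ∫⁻ t in Ioc (1 / ‖z‖) 1, 2 * (ENNReal.ofReal (U a (k + 1) (RD g) (t • z)) *
        ENNReal.ofReal (kk a ‖z‖ t)) := by
        refine add_le_add ?_ ?_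
        · rw [← ENNReal.ofReal_mul (norm_nonneg _)]
          apply ENNReal.ofReal_le_ofReal
          apply mul_le_mul (hM _ hn1) _ (wt_pos a k z).le hM0
          unfold wt
          apply div_le_self (Real.exp_pos _).le
          apply one_le_pow₀
          nlinarith [sq_nonneg ‖z‖]
        · apply setLIntegral_mono' measurableSet_Ioc
          intro t ht
          have ht0 : 0 < t := lt_trans (by positivity) ht.1
          have htz : 1 ≤ t * ‖z‖ := by
            have := ht.1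
            rw [div_lt_iff₀ hr0] at this
            exact this.le
          have h3 := ENNReal.ofReal_le_ofReal (ray_weight (g := g) a k ht0 ht.2 htz)
          rw [ENNReal.ofReal_mul (by positivity : 0 ≤ ‖RD g (t • z)‖ / t),
            ENNReal.ofReal_mul (by norm_num : (0 : ℝ) ≤ 2),
            ENNReal.ofReal_mul (U_nonneg _ _ _ _), ENNReal.ofReal_ofNat] at h3
          exact h3
    _ = _ := by
        rw [lintegral_const_mul' _ _ (by norm_num)]

/-- the integral along the ray, to the power `p` -/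
theorem HP {h : Cn n → ℂ} (hh : Differentiable ℂ h) {a : ℝ} (ha : 0 < a) (k : ℕ) {p : ℝ}
    (hp : 0 < p) : ∃ C : ℝ≥0∞, C ≠ ∞ ∧ ∀ z : Cn n, 2 ≤ ‖z‖ →
      (∫⁻ t in Ioc (1 / ‖z‖) 1, ENNReal.ofReal (U a k h (t • z)) *
        ENNReal.ofReal (kk a ‖z‖ t)) ^ p ≤
      C * ∫⁻ t in Ioc (1 / ‖z‖) 1, F a k p h (t • z) *
        ENNReal.ofReal (kk (a * min p 1) ‖z‖ t) := by
  have hUm : ∀ z : Cn n, Measurable (fun t : ℝ => ENNReal.ofReal (U a k h (t • z))) := by
    intro z
    have : Continuous (fun t : ℝ => U a k h (t • z)) :=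
      (continuous_U a k hh.continuous).comp (continuous_id.smul continuous_const)
    exact this.measurable.ennreal_ofReal
  have hkm : ∀ b r : ℝ, Measurable (fun t : ℝ => ENNReal.ofReal (kk b r t)) := fun b r =>
    (continuous_kk b r).measurable.ennreal_ofReal
  have hloc : ∀ z : Cn n, 2 ≤ ‖z‖ → ∀ t ∈ Ioc (1 / ‖z‖) 1,
      ENNReal.ofReal (U a k h (t • z)) ^ p ≤ C1 n a k p * F a k p h (t • z) := by
    intro z hz t ht
    have hr0 : 0 < ‖z‖ := by linarith
    have ht0 : 0 < t := lt_trans (by positivity) ht.1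
    have htz : 1 ≤ t * ‖z‖ := by
      have := ht.1
      rw [div_lt_iff₀ hr0] at this
      exact this.le
    have hns : ‖t • z‖ = t * ‖z‖ := by rw [norm_smul, Real.norm_of_nonneg ht0.le]
    apply LA hh ha k hp (w := t • z) (w' := t • z) (by rw [hns]; exact htz)
    rw [sub_self, norm_zero]
    positivity
  rcases le_or_gt 1 p with hp1 | hp1
  · refine ⟨C1 n a k p * ENNReal.ofReal (1 / (2 * a)) ^ (p - 1),
      ENNReal.mul_ne_top (C1_ne_top n a k p)
        (ENNReal.rpow_ne_top_of_nonneg (by linarith) ENNReal.ofReal_ne_top), fun z hz => ?_⟩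
    rw [min_eq_right hp1, mul_one]
    have hr0 : 0 < ‖z‖ := by linarith
    have hc1 : 1 / ‖z‖ ≤ 1 := by rw [div_le_one hr0]; linarith
    calc (∫⁻ t in Ioc (1 / ‖z‖) 1, ENNReal.ofReal (U a k h (t • z)) *
        ENNReal.ofReal (kk a ‖z‖ t)) ^ p
        ≤ (∫⁻ t in Ioc (1 / ‖z‖) 1, ENNReal.ofReal (U a k h (t • z)) ^ p *
          ENNReal.ofReal (kk a ‖z‖ t)) *
          (∫⁻ t in Ioc (1 / ‖z‖) 1, ENNReal.ofReal (kk a ‖z‖ t)) ^ (p - 1) :=
          jensen_lintegral _ (hUm z).aemeasurable (hkm a ‖z‖).aemeasurable hp1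
      _ ≤ (∫⁻ t in Ioc (1 / ‖z‖) 1, C1 n a k p * (F a k p h (t • z) *
          ENNReal.ofReal (kk a ‖z‖ t))) * ENNReal.ofReal (1 / (2 * a)) ^ (p - 1) := by
          apply mul_le_mul'
          · apply setLIntegral_mono' measurableSet_Ioc
            intro t ht
            rw [← mul_assoc]
            gcongr
            exact hloc z hz t ht
          · apply ENNReal.rpow_le_rpow _ (by linarith)
            exact lintegral_kk_le ha (by positivity) hc1
      _ = _ := by
          rw [lintegral_const_mul' _ _ (C1_ne_top n a k p)]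
          ring
  · refine ⟨C4 n a k p, C4_ne_top n a k p, fun z hz => ?_⟩
    rw [min_eq_left hp1.le]
    set S := ∫⁻ t in Ioc (1 / ‖z‖) 1, F a k p h (t • z) *
        ENNReal.ofReal (kk (a * p) ‖z‖ t) with hS
    by_cases hK : C4 n a k p * S = ∞
    · rw [hK]; exact le_top
    have hr0 : 0 < ‖z‖ := by linarith
    set u : ℝ → ℝ≥0∞ := fun t => ENNReal.ofReal (U a k h (t • z)) *
      ENNReal.ofReal (Real.exp (-a * ‖z‖ ^ 2 * (1 - t ^ 2))) with hu
    set v : ℝ → ℝ≥0∞ := fun t => ENNReal.ofReal (t * ‖z‖ ^ 2) with hv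
    have hup : ∀ t, u t ^ p = Phi a k p h (t • z) *
        ENNReal.ofReal (Real.exp (-(a * p) * ‖z‖ ^ 2 * (1 - t ^ 2))) := by
      intro t
      simp only [hu]
      rw [ENNReal.mul_rpow_of_nonneg _ _ hp.le]
      congr 1
      rw [ENNReal.ofReal_rpow_of_nonneg (Real.exp_pos _).le hp.le, ← Real.exp_mul]
      congr 2
      ring
    have huv : ∀ t ∈ Ioc (1 / ‖z‖) 1, ENNReal.ofReal (U a k h (t • z)) *
        ENNReal.ofReal (kk a ‖z‖ t) = u t * v t := by
      intro t ht
      have ht0 : 0 < t := lt_trans (by positivity) ht.1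
      simp only [hu, hv]
      rw [mul_assoc, ← ENNReal.ofReal_mul (Real.exp_pos _).le]
      congr 2
      unfold kk
      ring
    rw [setLIntegral_congr_fun measurableSet_Ioc huv]
    apply small_lintegral _ hp hp1.le _ _ hK
    · rw [ae_restrict_iff' measurableSet_Ioc]
      refine Eventually.of_forall fun t ht => ?_
      rw [hup]
      exact local_sup hh ha k hp hz ht
    · calc ∫⁻ t in Ioc (1 / ‖z‖) 1, u t ^ p * v t
          ≤ ∫⁻ t in Ioc (1 / ‖z‖) 1, C4 n a k p * (F a k p h (t • z) *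
            ENNReal.ofReal (kk (a * p) ‖z‖ t)) := by
            apply setLIntegral_mono' measurableSet_Ioc
            intro t ht
            have ht0 : 0 < t := lt_trans (by positivity) ht.1
            have e : ENNReal.ofReal (kk (a * p) ‖z‖ t) =
                ENNReal.ofReal (Real.exp (-(a * p) * ‖z‖ ^ 2 * (1 - t ^ 2))) * v t := by
              simp only [hv]
              rw [← ENNReal.ofReal_mul (Real.exp_pos _).le]
              congr 1
              unfold kk
              ring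
            rw [hup, e]
            calc Phi a k p h (t • z) *
              ENNReal.ofReal (Real.exp (-(a * p) * ‖z‖ ^ 2 * (1 - t ^ 2))) * v t
                ≤ (C4 n a k p * F a k p h (t • z)) *
              ENNReal.ofReal (Real.exp (-(a * p) * ‖z‖ ^ 2 * (1 - t ^ 2))) * v t := by
                  gcongr
                  exact (hloc z hz t ht).trans (by gcongr; exact C1_le_C4 n ha k hp)
              _ = _ := by ring
        _ = _ := by
            rw [lintegral_const_mul' _ _ (C4_ne_top n a k p)]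

end Pool.Agent.T2H71.Fock
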