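import Mathlib
import Pool.Agent.T2H71.Fock.Back

/-!
The two implications for finite exponents, and for the exponent infinity.
-/

set_option autoImplicit false

open MeasureTheory Metric Set Filter Topology
open scoped ENNReal Real

namespace Pool.Agent.T2H71.Fock

variable {n : ℕ}

lemma add_rpow_le (x y : ℝ≥0∞) {p : ℝ} (hp : 0 < p) :
    (x + y) ^ p ≤ 2 ^ p * (x ^ p + y ^ p) := by
  have h1 : x + y ≤ 2 * max x y := by
    rw [two_mul]; exact add_le_add (le_max_left _ _) (le_max_right _ _)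
  calc (x + y) ^ p ≤ (2 * max x y) ^ p := ENNReal.rpow_le_rpow h1 hp.le
    _ = 2 ^ p * max x y ^ p := ENNReal.mul_rpow_of_nonneg _ _ hp.le
    _ ≤ 2 ^ p * (x ^ p + y ^ p) := by
        gcongr
        rcases le_total x y with h | h
        · rw [max_eq_right h]; exact le_add_self
        · rw [max_eq_left h]; exact le_self_add

lemma exists_bound_closedBall {G : Cn n → ℝ} (hG : Continuous G) (R : ℝ) :
    ∃ M : ℝ, ∀ z : Cn n, ‖z‖ ≤ R → G z ≤ M := by
  obtain ⟨M, hM⟩ := (isCompact_closedBall (0 : Cn n) R).exists_bound_of_continuousOn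
    hG.continuousOn
  refine ⟨M, fun z hz => ?_⟩
  have := hM z (by simpa using hz)
  exact (le_abs_self _).trans this

lemma local_finite {g : Cn n → ℂ} (hg : Continuous g) (a : ℝ) (k : ℕ) {p : ℝ} (hp : 0 < p)
    (R : ℝ) : ∫⁻ z in {z : Cn n | R ≤ ‖z‖}ᶜ, Phi a k p g z < ∞ := by
  obtain ⟨M, hM⟩ := exists_bound_closedBall (continuous_U a k hg) R
  have hsub : {z : Cn n | R ≤ ‖z‖}ᶜ ⊆ closedBall (0 : Cn n) R := by
    intro z hz
    have hz' : ¬ (R ≤ ‖z‖) := hz
    rw [mem_closedBall_zero_iff]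
    linarith
  calc ∫⁻ z in {z : Cn n | R ≤ ‖z‖}ᶜ, Phi a k p g z
      ≤ ∫⁻ z in closedBall (0 : Cn n) R, Phi a k p g z := lintegral_mono_set hsub
    _ ≤ ∫⁻ z in closedBall (0 : Cn n) R, (ENNReal.ofReal M) ^ p := by
        apply setLIntegral_mono' measurableSet_closedBall
        intro z hz
        rw [mem_closedBall_zero_iff] at hz
        unfold Phi
        gcongr
        exact hM z hz
    _ < ∞ := by
        rw [lintegral_const, Measure.restrict_apply MeasurableSet.univ, univ_inter]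
        exact ENNReal.mul_lt_top (ENNReal.rpow_lt_top_of_nonneg hp.le ENNReal.ofReal_ne_top)
          measure_closedBall_lt_top

lemma measurableSet_norm_ge (R : ℝ) : MeasurableSet {z : Cn n | R ≤ ‖z‖} :=
  measurableSet_le measurable_const measurable_norm

lemma gauss_finite {a : ℝ} (ha : 0 < a) {p : ℝ} (hp : 0 < p) {M : ℝ} (hM : 0 ≤ M) :
    ∫⁻ z : Cn n, ENNReal.ofReal (M * Real.exp (-a * ‖z‖ ^ 2)) ^ p < ∞ := by
  have h1 : Integrable (fun z : Cn n => Real.exp (-(a * p) * ‖z‖ ^ 2)) := by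
    have hb : 0 < ((a * p : ℝ) : ℂ).re := by
      rw [Complex.ofReal_re]; positivity
    have h2 := (GaussianFourier.integrable_cexp_neg_mul_sq_norm_add (V := Cn n) hb 0 0).norm
    refine h2.congr (Eventually.of_forall fun z => ?_)
    simp only [zero_mul, add_zero, Complex.norm_exp]
    congr 1
    have : -((a * p : ℝ) : ℂ) * (‖z‖ : ℂ) ^ 2 = ((-(a * p) * ‖z‖ ^ 2 : ℝ) : ℂ) := by
      push_cast; ring
    rw [this, Complex.ofReal_re]
  have h3 : ∀ z : Cn n, ENNReal.ofReal (M * Real.exp (-a * ‖z‖ ^ 2)) ^ p =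
      ENNReal.ofReal (M ^ p) * ENNReal.ofReal (Real.exp (-(a * p) * ‖z‖ ^ 2)) := by
    intro z
    rw [ENNReal.ofReal_rpow_of_nonneg (by positivity) hp.le,
      Real.mul_rpow hM (Real.exp_pos _).le, ENNReal.ofReal_mul (by positivity), ← Real.exp_mul]
    congr 3
    ring
  rw [lintegral_congr h3, lintegral_const_mul' _ _ ENNReal.ofReal_ne_top]
  refine ENNReal.mul_lt_top ENNReal.ofReal_lt_top ?_
  exact h1.lintegral_lt_top

lemma measurable_F {g : Cn n → ℂ} (hg : Continuous g) (a : ℝ) (k : ℕ) (p : ℝ) :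
    Measurable (F a k p g) := by
  set T : Set (Cn n × Cn n) := {q | ‖q.2 - q.1‖ < 1 / ‖q.1‖} with hT
  have hTm : MeasurableSet T := measurableSet_lt (measurable_snd.sub measurable_fst).norm
        (measurable_const.div measurable_fst.norm)
  have h1 : Measurable (fun w : Cn n => ∫⁻ x, T.indicator (fun q => Phi a k p g q.2) (w, x)) := by
    apply Measurable.lintegral_prod_right'
      (f := T.indicator (fun q : Cn n × Cn n => Phi a k p g q.2))
    exact ((measurable_Phi a k p hg).comp measurable_snd).indicator hTm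
  have h2 : F a k p g = fun w => ENNReal.ofReal (‖w‖ ^ Dm n) *
      ∫⁻ x, T.indicator (fun q => Phi a k p g q.2) (w, x) := by
    funext w
    unfold F
    congr 1
    rw [← lintegral_indicator measurableSet_ball]
    apply lintegral_congr
    intro x
    by_cases hx : x ∈ ball w (1 / ‖w‖)
    · have hx' : (w, x) ∈ T := by
        rw [mem_ball, dist_eq_norm] at hx
        exact hx
      rw [indicator_of_mem hx, indicator_of_mem hx']
    · have hx' : (w, x) ∉ T := by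
        intro h
        apply hx
        rw [mem_ball, dist_eq_norm]
        exact h
      rw [indicator_of_notMem hx, indicator_of_notMem hx']
  rw [h2]
  exact ((measurable_norm.pow_const _).ennreal_ofReal).mul h1

/-- from the derivative to the function -/
theorem back_p {g : Cn n → ℂ} (hg : Differentiable ℂ g) {a : ℝ} (ha : 0 < a) (k : ℕ) {p : ℝ}
    (hp : 0 < p) (hfin : ∫⁻ z, Phi a (k + 1) p (RD g) z < ∞) : ∫⁻ z, Phi a k p g z < ∞ := by
  have hR : Differentiable ℂ (RD g) := differentiable_RD hg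
  obtain ⟨M, hM⟩ := exists_bound_closedBall hg.continuous.norm 1
  have hM0 : 0 ≤ M := (norm_nonneg (g 0)).trans (hM 0 (by simp))
  obtain ⟨C, hC, hHP⟩ := HP hR ha (k + 1) hp
  have hb : 0 < a * min p 1 := mul_pos ha (lt_min hp one_pos)
  obtain ⟨C', hC', hSCH⟩ := SCH hb n
  have hFm : Measurable (F a (k + 1) p (RD g)) := measurable_F hR.continuous a (k + 1) p
  have hFint : ∫⁻ w in {w : Cn n | 1 ≤ ‖w‖}, F a (k + 1) p (RD g) w < ∞ := by
    refine lt_of_le_of_lt (INT hR.continuous a (k + 1) p) ?_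
    exact ENNReal.mul_lt_top (ENNReal.mul_lt_top ENNReal.ofReal_lt_top V1_ne_top.lt_top) hfin
  have hkAint : ∫⁻ z, ∫⁻ t in Ioc (0 : ℝ) 1,
      kA (a * min p 1) (F a (k + 1) p (RD g)) z t < ∞ :=
    lt_of_le_of_lt (hSCH _ hFm) (ENNReal.mul_lt_top ENNReal.ofReal_lt_top hFint)
  rw [← lintegral_add_compl _ (measurableSet_norm_ge (n := n) 2)]
  refine ENNReal.add_lt_top.2 ⟨?_, local_finite hg.continuous a k hp 2⟩
  have hpt : ∀ z ∈ {z : Cn n | 2 ≤ ‖z‖}, Phi a k p g z ≤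
      2 ^ p * ENNReal.ofReal (M * Real.exp (-a * ‖z‖ ^ 2)) ^ p +
      2 ^ p * (2 ^ p * C) * ∫⁻ t in Ioc (0 : ℝ) 1,
        kA (a * min p 1) (F a (k + 1) p (RD g)) z t := by
    intro z hz
    have hz2 : 2 ≤ ‖z‖ := hz
    have hr0 : 0 < ‖z‖ := by linarith
    have h1 := hardy hg (a := a) k hM (z := z) (by linarith)
    set I := ∫⁻ t in Ioc (1 / ‖z‖) 1, ENNReal.ofReal (U a (k + 1) (RD g) (t • z)) *
        ENNReal.ofReal (kk a ‖z‖ t) with hI
    have h2 : I ^ p ≤ C * ∫⁻ t in Ioc (0 : ℝ) 1,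
        kA (a * min p 1) (F a (k + 1) p (RD g)) z t := by
      refine (hHP z hz2).trans ?_
      refine mul_le_mul_right ?_ _
      calc ∫⁻ t in Ioc (1 / ‖z‖) 1, F a (k + 1) p (RD g) (t • z) *
            ENNReal.ofReal (kk (a * min p 1) ‖z‖ t)
          = ∫⁻ t in Ioc (1 / ‖z‖) 1, kA (a * min p 1) (F a (k + 1) p (RD g)) z t := by
            apply setLIntegral_congr_fun measurableSet_Ioc
            intro t ht
            have htz : 1 ≤ t * ‖z‖ := by
              have := ht.1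
              rw [div_lt_iff₀ hr0] at this
              exact this.le
            simp only
            unfold kA
            rw [indicator_of_mem (show (z, t) ∈ {q : Cn n × ℝ | 1 ≤ q.2 * ‖q.1‖} from htz)]
            rfl
        _ ≤ _ := by
            apply lintegral_mono_set
            apply Ioc_subset_Ioc_left
            positivity
    unfold Phi
    calc ENNReal.ofReal (U a k g z) ^ p
        ≤ (ENNReal.ofReal (M * Real.exp (-a * ‖z‖ ^ 2)) + 2 * I) ^ p :=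
          ENNReal.rpow_le_rpow h1 hp.le
      _ ≤ 2 ^ p * (ENNReal.ofReal (M * Real.exp (-a * ‖z‖ ^ 2)) ^ p + (2 * I) ^ p) :=
          add_rpow_le _ _ hp
      _ = 2 ^ p * ENNReal.ofReal (M * Real.exp (-a * ‖z‖ ^ 2)) ^ p + 2 ^ p * (2 ^ p * I ^ p) := by
          rw [ENNReal.mul_rpow_of_nonneg _ _ hp.le, mul_add]
      _ ≤ 2 ^ p * ENNReal.ofReal (M * Real.exp (-a * ‖z‖ ^ 2)) ^ p +
        2 ^ p * (2 ^ p * (C * ∫⁻ t in Ioc (0 : ℝ) 1,
        kA (a * min p 1) (F a (k + 1) p (RD g)) z t)) := by gcongr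
      _ = _ := by ring
  have h2p : (2 : ℝ≥0∞) ^ p ≠ ∞ := ENNReal.rpow_ne_top_of_nonneg hp.le (by norm_num)
  calc ∫⁻ z in {z : Cn n | 2 ≤ ‖z‖}, Phi a k p g z
      ≤ ∫⁻ z in {z : Cn n | 2 ≤ ‖z‖},
        (2 ^ p * ENNReal.ofReal (M * Real.exp (-a * ‖z‖ ^ 2)) ^ p +
      2 ^ p * (2 ^ p * C) * ∫⁻ t in Ioc (0 : ℝ) 1,
        kA (a * min p 1) (F a (k + 1) p (RD g)) z t) :=
        setLIntegral_mono' (measurableSet_norm_ge 2) hpt
    _ ≤ ∫⁻ z, (2 ^ p * ENNReal.ofReal (M * Real.exp (-a * ‖z‖ ^ 2)) ^ p +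
      2 ^ p * (2 ^ p * C) * ∫⁻ t in Ioc (0 : ℝ) 1,
        kA (a * min p 1) (F a (k + 1) p (RD g)) z t) := setLIntegral_le_lintegral _ _
    _ = 2 ^ p * (∫⁻ z : Cn n, ENNReal.ofReal (M * Real.exp (-a * ‖z‖ ^ 2)) ^ p) +
      2 ^ p * (2 ^ p * C) * ∫⁻ z, ∫⁻ t in Ioc (0 : ℝ) 1,
        kA (a * min p 1) (F a (k + 1) p (RD g)) z t := by
        rw [lintegral_add_left, lintegral_const_mul' _ _ h2p,
          lintegral_const_mul' _ _ (ENNReal.mul_ne_top h2p (ENNReal.mul_ne_top h2p hC))]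
        have : Continuous (fun z : Cn n => M * Real.exp (-a * ‖z‖ ^ 2)) := by fun_prop
        exact (this.measurable.ennreal_ofReal.pow_const _).const_mul _
    _ < ∞ := by
        refine ENNReal.add_lt_top.2 ⟨ENNReal.mul_lt_top h2p.lt_top (gauss_finite ha hp hM0), ?_⟩
        exact ENNReal.mul_lt_top (ENNReal.mul_ne_top h2p (ENNReal.mul_ne_top h2p hC)).lt_top hkAint

/-- Cauchy estimate -/
lemma cauchy {g : Cn n → ℂ} (hg : Differentiable ℂ g) {a : ℝ} (ha : 0 < a) (k : ℕ) {z : Cn n}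
    (hz : 1 ≤ ‖z‖) : ∃ z' : Cn n, ‖z' - z‖ ≤ 1 / (2 * ‖z‖) ∧
      U a (k + 1) (RD g) z ≤ 2 * (Real.exp (6 * a) * 7 ^ k) * U a k g z' := by
  have hr0 : 0 < ‖z‖ := by linarith
  have hρ : 0 < 1 / (2 * ‖z‖) := by positivity
  obtain ⟨z', hz', hmax⟩ := (isCompact_closedBall z (1 / (2 * ‖z‖))).exists_isMaxOn
    ⟨z, mem_closedBall_self hρ.le⟩ hg.continuous.norm.continuousOn
  have hz'n : ‖z' - z‖ ≤ 1 / (2 * ‖z‖) := by
    rw [mem_closedBall, dist_eq_norm] at hz'; exact hz'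
  refine ⟨z', hz'n, ?_⟩
  have hR : 0 < 1 / (2 * ‖z‖ ^ 2) := by positivity
  have hd : Differentiable ℂ (fun l : ℂ => g (z + l • z)) :=
    hg.comp ((differentiable_const z).add (differentiable_id.smul_const z))
  have h1 := Complex.norm_deriv_le_of_forall_mem_sphere_norm_le (c := 0)
    (R := 1 / (2 * ‖z‖ ^ 2)) (C := ‖g z'‖) (f := fun l : ℂ => g (z + l • z)) hR
    hd.diffContOnCl (by
      intro l hl
      rw [mem_sphere_zero_iff_norm] at hl
      apply hmax
      rw [mem_closedBall, dist_eq_norm, add_sub_cancel_left, norm_smul, hl]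
      apply le_of_eq
      field_simp)
  have h2 : deriv (fun l : ℂ => g (z + l • z)) 0 = RD g z := by
    have h3 : HasDerivAt (fun l : ℂ => z + l • z) z 0 := by
      simpa using ((hasDerivAt_id (0 : ℂ)).smul_const z).const_add z
    have h4 : HasFDerivAt g (fderiv ℂ g (z + (0 : ℂ) • z)) (z + (0 : ℂ) • z) :=
      (hg _).hasFDerivAt
    have h5 := h4.comp_hasDerivAt (0 : ℂ) h3
    have h6 := h5.deriv
    rw [zero_smul, add_zero] at h6
    exact h6
  rw [h2] at h1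
  have h7 : ‖RD g z‖ ≤ ‖g z'‖ * (2 * ‖z‖ ^ 2) := by
    rw [div_div_eq_mul_div, div_one] at h1
    exact h1
  have hw' : ‖z' - z‖ ≤ 1 / ‖z‖ := by
    refine hz'n.trans ?_
    rw [div_le_div_iff₀ (by positivity) hr0]
    linarith
  have hw : wt a k z ≤ Real.exp (6 * a) * 7 ^ k * wt a k z' :=
    wt_compare' ha k hz hw' (by rw [sub_self, norm_zero]; positivity)
  have h8 : wt a (k + 1) z * (2 * ‖z‖ ^ 2) ≤ 2 * wt a k z := by
    unfold wt
    rw [pow_succ (1 + ‖z‖ ^ 2) k]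
    have e : Real.exp (-a * ‖z‖ ^ 2) / ((1 + ‖z‖ ^ 2) ^ k * (1 + ‖z‖ ^ 2)) * (2 * ‖z‖ ^ 2) =
        2 * (Real.exp (-a * ‖z‖ ^ 2) / (1 + ‖z‖ ^ 2) ^ k) * (‖z‖ ^ 2 / (1 + ‖z‖ ^ 2)) := by
      field_simp
    rw [e]
    apply mul_le_of_le_one_right (by positivity)
    rw [div_le_one (by positivity)]
    linarith
  unfold U
  calc ‖RD g z‖ * wt a (k + 1) z ≤ ‖g z'‖ * (2 * ‖z‖ ^ 2) * wt a (k + 1) z := by
        gcongr
        exact (wt_pos _ _ _).le
    _ = ‖g z'‖ * (wt a (k + 1) z * (2 * ‖z‖ ^ 2)) := by ring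
    _ ≤ ‖g z'‖ * (2 * wt a k z) := by gcongr
    _ ≤ ‖g z'‖ * (2 * (Real.exp (6 * a) * 7 ^ k * wt a k z')) := by gcongr
    _ = _ := by ring

/-- from the function to the derivative -/
theorem fwd_p {g : Cn n → ℂ} (hg : Differentiable ℂ g) {a : ℝ} (ha : 0 < a) (k : ℕ) {p : ℝ}
    (hp : 0 < p) (hfin : ∫⁻ z, Phi a k p g z < ∞) : ∫⁻ z, Phi a (k + 1) p (RD g) z < ∞ := by
  have hR : Differentiable ℂ (RD g) := differentiable_RD hg
  set K := 2 * (Real.exp (6 * a) * 7 ^ k) with hK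
  have hK0 : 0 ≤ K := by positivity
  rw [← lintegral_add_compl _ (measurableSet_norm_ge (n := n) 1)]
  refine ENNReal.add_lt_top.2 ⟨?_, local_finite hR.continuous a (k + 1) hp 1⟩
  have hpt : ∀ z ∈ {z : Cn n | 1 ≤ ‖z‖}, Phi a (k + 1) p (RD g) z ≤
      (ENNReal.ofReal K ^ p * C1 n a k p) * F a k p g z := by
    intro z hz
    have hz1 : 1 ≤ ‖z‖ := hz
    obtain ⟨z', hz', hle⟩ := cauchy hg ha k hz1
    calc Phi a (k + 1) p (RD g) z ≤ ENNReal.ofReal (K * U a k g z') ^ p := by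
          unfold Phi
          gcongr
      _ = ENNReal.ofReal K ^ p * Phi a k p g z' := by
          unfold Phi
          rw [ENNReal.ofReal_mul hK0, ENNReal.mul_rpow_of_nonneg _ _ hp.le]
      _ ≤ ENNReal.ofReal K ^ p * (C1 n a k p * F a k p g z) := by
          gcongr
          exact LA hg ha k hp hz1 hz'
      _ = _ := by ring
  have hKt : ENNReal.ofReal K ^ p * C1 n a k p ≠ ∞ :=
    ENNReal.mul_ne_top (ENNReal.rpow_ne_top_of_nonneg hp.le ENNReal.ofReal_ne_top)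
      (C1_ne_top n a k p)
  calc ∫⁻ z in {z : Cn n | 1 ≤ ‖z‖}, Phi a (k + 1) p (RD g) z
      ≤ ∫⁻ z in {z : Cn n | 1 ≤ ‖z‖}, (ENNReal.ofReal K ^ p * C1 n a k p) * F a k p g z :=
        setLIntegral_mono' (measurableSet_norm_ge 1) hpt
    _ = (ENNReal.ofReal K ^ p * C1 n a k p) * ∫⁻ z in {z : Cn n | 1 ≤ ‖z‖}, F a k p g z := by
        rw [lintegral_const_mul' _ _ hKt]
    _ ≤ (ENNReal.ofReal K ^ p * C1 n a k p) *
        ((ENNReal.ofReal (3 ^ Dm n) * V1 n) * ∫⁻ x, Phi a k p g x) := by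
        gcongr
        exact INT hg.continuous a k p
    _ < ∞ := ENNReal.mul_lt_top hKt.lt_top (ENNReal.mul_lt_top
        (ENNReal.mul_lt_top ENNReal.ofReal_lt_top V1_ne_top.lt_top) hfin)

theorem fwd_top {g : Cn n → ℂ} (hg : Differentiable ℂ g) {a : ℝ} (ha : 0 < a) (k : ℕ)
    (hB : ∃ B : ℝ, ∀ z, U a k g z ≤ B) : ∃ B : ℝ, ∀ z, U a (k + 1) (RD g) z ≤ B := by
  have hR : Differentiable ℂ (RD g) := differentiable_RD hg
  obtain ⟨B, hB⟩ := hB
  obtain ⟨M, hM⟩ := exists_bound_closedBall (continuous_U a (k + 1) hR.continuous) 1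
  refine ⟨max M (2 * (Real.exp (6 * a) * 7 ^ k) * B), fun z => ?_⟩
  rcases le_total 1 ‖z‖ with hz | hz
  · obtain ⟨z', _, hle⟩ := cauchy hg ha k hz
    refine le_trans (hle.trans ?_) (le_max_right _ _)
    gcongr
    exact hB z'
  · exact (hM z hz).trans (le_max_left _ _)

theorem back_top {g : Cn n → ℂ} (hg : Differentiable ℂ g) {a : ℝ} (ha : 0 < a) (k : ℕ)
    (hB : ∃ B : ℝ, ∀ z, U a (k + 1) (RD g) z ≤ B) : ∃ B : ℝ, ∀ z, U a k g z ≤ B := by
  obtain ⟨B, hB⟩ := hB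
  obtain ⟨M, hM⟩ := exists_bound_closedBall hg.continuous.norm 1
  have hM0 : 0 ≤ M := (norm_nonneg (g 0)).trans (hM 0 (by simp))
  have hB0 : 0 ≤ B := (U_nonneg a (k + 1) (RD g) 0).trans (hB 0)
  obtain ⟨M', hM'⟩ := exists_bound_closedBall (continuous_U a k hg.continuous) 1
  refine ⟨max M' (M + 2 * (B * (1 / (2 * a)))), fun z => ?_⟩
  rcases le_total 1 ‖z‖ with hz | hz
  · have hr0 : 0 < ‖z‖ := by linarith
    have hc1 : 1 / ‖z‖ ≤ 1 := by rw [div_le_one hr0]; exact hz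
    refine le_trans ?_ (le_max_right _ _)
    have h1 := hardy hg (a := a) k hM hz
    have h2 : ∫⁻ t in Ioc (1 / ‖z‖) 1, ENNReal.ofReal (U a (k + 1) (RD g) (t • z)) *
        ENNReal.ofReal (kk a ‖z‖ t) ≤ ENNReal.ofReal B * ENNReal.ofReal (1 / (2 * a)) := by
      calc ∫⁻ t in Ioc (1 / ‖z‖) 1, ENNReal.ofReal (U a (k + 1) (RD g) (t • z)) *
            ENNReal.ofReal (kk a ‖z‖ t)
          ≤ ∫⁻ t in Ioc (1 / ‖z‖) 1, ENNReal.ofReal B * ENNReal.ofReal (kk a ‖z‖ t) := by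
            apply lintegral_mono
            intro t
            show ENNReal.ofReal (U a (k + 1) (RD g) (t • z)) * ENNReal.ofReal (kk a ‖z‖ t) ≤
              ENNReal.ofReal B * ENNReal.ofReal (kk a ‖z‖ t)
            gcongr
            exact hB _
        _ = ENNReal.ofReal B * ∫⁻ t in Ioc (1 / ‖z‖) 1, ENNReal.ofReal (kk a ‖z‖ t) := by
            rw [lintegral_const_mul' _ _ ENNReal.ofReal_ne_top]
        _ ≤ _ := by
            gcongr
            exact lintegral_kk_le ha (by positivity) hc1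
    have h3 : ENNReal.ofReal (U a k g z) ≤ ENNReal.ofReal (M + 2 * (B * (1 / (2 * a)))) := by
      rw [ENNReal.ofReal_add hM0 (by positivity), ENNReal.ofReal_mul (by norm_num : (0 : ℝ) ≤ 2),
        ENNReal.ofReal_mul hB0, ENNReal.ofReal_ofNat]
      refine h1.trans (add_le_add ?_ (mul_le_mul_right h2 _))
      apply ENNReal.ofReal_le_ofReal
      apply mul_le_of_le_one_right hM0
      apply Real.exp_le_one_iff.2
      have : 0 ≤ a * ‖z‖ ^ 2 := by positivity
      linarith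
    exact (ENNReal.ofReal_le_ofReal_iff (by positivity)).1 h3
  · exact (hM' z hz).trans (le_max_left _ _)

end Pool.Agent.T2H71.Fock
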